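import Mathlib

/-! # Digit sums: additivity over blocks and Chernoff bounds -/

set_option autoImplicit false

open Finset

namespace Pool.Agent.H27.Fact

/-- sum of the base `p` digits -/
def sp (p n : ℕ) : ℕ := (Nat.digits p n).sum

theorem sp_zero (p : ℕ) : sp p 0 = 0 := by simp [sp]

theorem sp_add_mul {p : ℕ} (hp : 2 ≤ p) {d y : ℕ} (hd : d < p) :
    sp p (d + p * y) = d + sp p y := by
  by_cases h : d ≠ 0 ∨ y ≠ 0
  · unfold sp
    rw [Nat.digits_add p (by omega) d y hd h]
    simp
  · push Not at h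
    obtain ⟨h1, h2⟩ := h
    subst h1
    subst h2
    simp [sp]

theorem sp_split {p : ℕ} (hp : 2 ≤ p) (l : ℕ) : ∀ a b : ℕ, a < p ^ l →
    sp p (a + p ^ l * b) = sp p a + sp p b := by
  induction l with
  | zero =>
    intro a b ha
    have : a = 0 := by simpa using ha
    subst this
    simp [sp_zero]
  | succ l ih =>
    intro a b ha
    have h1 : a / p < p ^ l := by
      apply Nat.div_lt_of_lt_mul
      rw [← pow_succ']
      exact ha
    have h2 : a + p ^ (l + 1) * b = a % p + p * (a / p + p ^ l * b) := by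
      have := Nat.mod_add_div a p
      calc a + p ^ (l + 1) * b = (a % p + p * (a / p)) + p ^ (l + 1) * b := by rw [this]
        _ = _ := by ring
    have h3 : sp p a = a % p + sp p (a / p) := by
      conv_lhs => rw [← Nat.mod_add_div a p]
      exact sp_add_mul hp (Nat.mod_lt _ (by omega))
    rw [h2, sp_add_mul hp (Nat.mod_lt _ (by omega)), ih _ _ h1, h3]
    ring

theorem sp_mod_div {p : ℕ} (hp : 2 ≤ p) (l n : ℕ) :
    sp p n = sp p (n % p ^ l) + sp p (n / p ^ l) := by
  conv_lhs => rw [← Nat.mod_add_div n (p ^ l)]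
  exact sp_split hp l _ _ (Nat.mod_lt _ (by positivity))

theorem sp_pow_sub_one {p : ℕ} (hp : 2 ≤ p) (l : ℕ) : sp p (p ^ l - 1) = l * (p - 1) := by
  induction l with
  | zero => simp [sp_zero]
  | succ l ih =>
    have hpos : 0 < p ^ l := by positivity
    have h1 : p ^ (l + 1) - 1 = (p - 1) + p * (p ^ l - 1) := by
      have : p * (p ^ l - 1) = p ^ (l + 1) - p := by
        rw [Nat.mul_sub, pow_succ', mul_one]
      rw [this]
      have h2 : p ≤ p ^ (l + 1) := by
        calc p = p ^ 1 := (pow_one p).symm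
          _ ≤ p ^ (l + 1) := Nat.pow_le_pow_right (by omega) (by omega)
      omega
    rw [h1, sp_add_mul hp (by omega), ih]
    ring

theorem sp_le {p : ℕ} (n : ℕ) : sp p n ≤ n := Nat.digit_sum_le p n

theorem legendre {p : ℕ} (hp : p.Prime) (n : ℕ) :
    (p - 1) * (n.factorial).factorization p + sp p n = n := by
  have : Fact p.Prime := ⟨hp⟩
  have h := sub_one_mul_padicValNat_factorial (p := p) n
  rw [Nat.factorization_def _ hp, h]
  exact Nat.sub_add_cancel (sp_le n)

theorem sp_add_le {p : ℕ} (hp : p.Prime) (a b : ℕ) : sp p (a + b) ≤ sp p a + sp p b := by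
  have h1 := legendre hp a
  have h2 := legendre hp b
  have h3 := legendre hp (a + b)
  have h4 : (a.factorial).factorization p + (b.factorial).factorization p ≤
      ((a + b).factorial).factorization p := by
    have h5 : a.factorial * b.factorial ∣ (a + b).factorial :=
      Nat.factorial_mul_factorial_dvd_factorial_add a b
    have h6 := (Nat.factorization_le_iff_dvd
      (mul_ne_zero (Nat.factorial_ne_zero a) (Nat.factorial_ne_zero b))
      (Nat.factorial_ne_zero _)).2 h5 p
    rw [Nat.factorization_mul (Nat.factorial_ne_zero a) (Nat.factorial_ne_zero b)] at h6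
    exact h6
  have h7 := Nat.mul_le_mul_left (p - 1) h4
  rw [Nat.mul_add] at h7
  omega

theorem sum_range_mul (p M : ℕ) (f : ℕ → ℝ) :
    ∑ x ∈ range (p * M), f x = ∑ y ∈ range M, ∑ d ∈ range p, f (d + p * y) := by
  induction M with
  | zero => simp
  | succ M ih =>
    rw [Nat.mul_succ, sum_range_add, ih, sum_range_succ]
    congr 1
    apply sum_congr rfl
    intro d _
    rw [add_comm]

theorem mgf_eq {p : ℕ} (hp : 2 ≤ p) (t : ℝ) (D : ℕ) :
    ∑ x ∈ range (p ^ D), Real.exp (t * sp p x) = (∑ d ∈ range p, Real.exp (t * d)) ^ D := by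
  induction D with
  | zero => simp [sp_zero]
  | succ D ih =>
    rw [pow_succ', sum_range_mul, pow_succ', ← ih, mul_sum]
    apply sum_congr rfl
    intro y _
    rw [sum_mul]
    apply sum_congr rfl
    intro d hd
    rw [sp_add_mul hp (mem_range.1 hd), ← Real.exp_add]
    push_cast
    ring_nf

theorem mgf_le {p : ℕ} (hp : 2 ≤ p) (t : ℝ) :
    ∑ d ∈ range p, Real.exp (t * d) ≤
      p * Real.exp (t * ((p - 1) / 2) + (t * ((p - 1) / 2)) ^ 2 / 2) := by
  set c : ℝ := ((p : ℝ) - 1) / 2 with hc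
  have hp1 : (1 : ℝ) ≤ p := by exact_mod_cast (by omega : 1 ≤ p)
  have h1 : ∑ d ∈ range p, Real.exp (t * d) =
      Real.exp (t * c) * ∑ d ∈ range p, Real.exp (t * (d - c)) := by
    rw [mul_sum]
    apply sum_congr rfl
    intro d _
    rw [← Real.exp_add]
    ring_nf
  have h2 : ∑ d ∈ range p, Real.exp (t * (d - c)) = ∑ d ∈ range p, Real.exp (-(t * (d - c))) := by
    rw [← sum_range_reflect]
    apply sum_congr rfl
    intro d hd
    have hd' : d < p := mem_range.1 hd
    have h3 : ((p - 1 - d : ℕ) : ℝ) = p - 1 - d := by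
      rw [Nat.cast_sub (by omega), Nat.cast_sub (by omega)]
      simp
    rw [h3, hc]
    congr 1
    ring
  have h4 : ∑ d ∈ range p, Real.exp (t * (d - c)) = ∑ d ∈ range p, Real.cosh (t * (d - c)) := by
    have h5 : 2 * ∑ d ∈ range p, Real.exp (t * (d - c)) =
        2 * ∑ d ∈ range p, Real.cosh (t * (d - c)) := by
      have h6 : 2 * ∑ d ∈ range p, Real.exp (t * (d - c)) =
          ∑ d ∈ range p, Real.exp (t * (d - c)) + ∑ d ∈ range p, Real.exp (-(t * (d - c))) := by
        rw [← h2]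
        ring
      rw [h6, ← sum_add_distrib, mul_sum]
      apply sum_congr rfl
      intro d _
      rw [Real.cosh_eq]
      ring
    linarith
  have h7 : ∑ d ∈ range p, Real.cosh (t * (d - c)) ≤ ∑ _d ∈ range p, Real.cosh (t * c) := by
    apply sum_le_sum
    intro d hd
    have hd' : (d : ℝ) ≤ p - 1 := by
      have : d + 1 ≤ p := mem_range.1 hd
      have h8 : (d : ℝ) + 1 ≤ p := by exact_mod_cast this
      linarith
    have hd0 : (0 : ℝ) ≤ d := Nat.cast_nonneg d
    rw [Real.cosh_le_cosh, abs_mul, abs_mul]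
    apply mul_le_mul_of_nonneg_left _ (abs_nonneg t)
    rw [abs_of_nonneg (by rw [hc]; linarith : (0 : ℝ) ≤ c), abs_le, hc]
    constructor <;> linarith
  rw [h1, h4]
  calc Real.exp (t * c) * ∑ d ∈ range p, Real.cosh (t * (d - c))
      ≤ Real.exp (t * c) * ∑ _d ∈ range p, Real.cosh (t * c) := by gcongr
    _ = Real.exp (t * c) * (p * Real.cosh (t * c)) := by simp
    _ ≤ Real.exp (t * c) * (p * Real.exp ((t * c) ^ 2 / 2)) := by
        gcongr
        exact Real.cosh_le_exp_half_sq _
    _ = _ := by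
        rw [Real.exp_add]
        ring

theorem mgf_pow_le {p : ℕ} (hp : 2 ≤ p) (t : ℝ) (D : ℕ) :
    ∑ x ∈ range (p ^ D), Real.exp (t * sp p x) ≤
      p ^ D * Real.exp ((t * ((p - 1) / 2) + (t * ((p - 1) / 2)) ^ 2 / 2) * D) := by
  rw [mgf_eq hp]
  calc (∑ d ∈ range p, Real.exp (t * d)) ^ D
      ≤ (p * Real.exp (t * ((p - 1) / 2) + (t * ((p - 1) / 2)) ^ 2 / 2)) ^ D := by
        gcongr
        exact mgf_le hp t
    _ = _ := by
        rw [mul_pow, ← Real.exp_nat_mul, mul_comm (D : ℝ)]

/-- lower tail -/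
theorem card_low {p : ℕ} (hp : 2 ≤ p) {ε : ℝ} (D : ℕ) (hε : 0 ≤ ε) :
    (((range (p ^ D)).filter (fun x => (sp p x : ℝ) ≤ (1 / 2 - ε) * (p - 1) * D)).card : ℝ) ≤
      p ^ D * Real.exp (-(2 * ε ^ 2 * D)) := by
  have hp1 : (1 : ℝ) < p := by exact_mod_cast (by omega : 1 < p)
  have hc : 0 < ((p : ℝ) - 1) / 2 := by linarith
  set t : ℝ := -(2 * ε / (((p : ℝ) - 1) / 2)) with ht
  have htc : t * (((p : ℝ) - 1) / 2) = -(2 * ε) := by
    rw [ht, neg_mul, div_mul_cancel₀ _ hc.ne']
  have h1 := mgf_pow_le hp t D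
  rw [htc] at h1
  set S := (range (p ^ D)).filter (fun x => (sp p x : ℝ) ≤ (1 / 2 - ε) * (p - 1) * D) with hS
  have h2 : (S.card : ℝ) * Real.exp (-(2 * ε) * (1 - 2 * ε) * D) ≤
      ∑ x ∈ range (p ^ D), Real.exp (t * sp p x) := by
    calc (S.card : ℝ) * Real.exp (-(2 * ε) * (1 - 2 * ε) * D)
        = ∑ _x ∈ S, Real.exp (-(2 * ε) * (1 - 2 * ε) * D) := by
          rw [sum_const, nsmul_eq_mul]
      _ ≤ ∑ x ∈ S, Real.exp (t * sp p x) := by
          apply sum_le_sum
          intro x hx
          have hx' : (sp p x : ℝ) ≤ (1 / 2 - ε) * (p - 1) * D := (mem_filter.1 hx).2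
          apply Real.exp_le_exp.2
          have ht0 : t ≤ 0 := by
            rw [ht]
            have : 0 ≤ 2 * ε / (((p : ℝ) - 1) / 2) := by positivity
            linarith
          have h3 := mul_le_mul_of_nonpos_left hx' ht0
          have h4 : t * ((1 / 2 - ε) * (p - 1) * D) = -(2 * ε) * (1 - 2 * ε) * D := by
            have : t * ((1 / 2 - ε) * (p - 1) * D) =
                (t * (((p : ℝ) - 1) / 2)) * ((1 - 2 * ε) * D) := by ring
            rw [this, htc]
            ring
          linarith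
      _ ≤ ∑ x ∈ range (p ^ D), Real.exp (t * sp p x) := by
          apply sum_le_sum_of_subset_of_nonneg (filter_subset _ _)
          intro x _ _
          exact (Real.exp_pos _).le
  have h5 : (S.card : ℝ) ≤ (p ^ D * Real.exp ((-(2 * ε) + (-(2 * ε)) ^ 2 / 2) * D)) *
      Real.exp (2 * ε * (1 - 2 * ε) * D) := by
    have h6 := mul_le_mul_of_nonneg_right (h2.trans h1)
      (Real.exp_pos (2 * ε * (1 - 2 * ε) * D)).le
    have h7 : (S.card : ℝ) * Real.exp (-(2 * ε) * (1 - 2 * ε) * D) *
        Real.exp (2 * ε * (1 - 2 * ε) * D) = S.card := by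
      rw [mul_assoc, ← Real.exp_add]
      ring_nf
      simp
    rw [h7] at h6
    exact h6
  refine h5.trans (le_of_eq ?_)
  rw [mul_assoc, ← Real.exp_add]
  congr 2
  ring

/-- upper tail -/
theorem card_high {p : ℕ} (hp : 2 ≤ p) {ε : ℝ} (D : ℕ) (hε : 0 ≤ ε) :
    (((range (p ^ D)).filter (fun x => (1 / 2 + ε) * (p - 1) * D ≤ (sp p x : ℝ))).card : ℝ) ≤
      p ^ D * Real.exp (-(2 * ε ^ 2 * D)) := by
  have hp1 : (1 : ℝ) < p := by exact_mod_cast (by omega : 1 < p)
  have hc : 0 < ((p : ℝ) - 1) / 2 := by linarith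
  set t : ℝ := 2 * ε / (((p : ℝ) - 1) / 2) with ht
  have htc : t * (((p : ℝ) - 1) / 2) = 2 * ε := by
    rw [ht, div_mul_cancel₀ _ hc.ne']
  have h1 := mgf_pow_le hp t D
  rw [htc] at h1
  set S := (range (p ^ D)).filter (fun x => (1 / 2 + ε) * (p - 1) * D ≤ (sp p x : ℝ)) with hS
  have h2 : (S.card : ℝ) * Real.exp (2 * ε * (1 + 2 * ε) * D) ≤
      ∑ x ∈ range (p ^ D), Real.exp (t * sp p x) := by
    calc (S.card : ℝ) * Real.exp (2 * ε * (1 + 2 * ε) * D)
        = ∑ _x ∈ S, Real.exp (2 * ε * (1 + 2 * ε) * D) := by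
          rw [sum_const, nsmul_eq_mul]
      _ ≤ ∑ x ∈ S, Real.exp (t * sp p x) := by
          apply sum_le_sum
          intro x hx
          have hx' : (1 / 2 + ε) * (p - 1) * D ≤ (sp p x : ℝ) := (mem_filter.1 hx).2
          apply Real.exp_le_exp.2
          have ht0 : 0 ≤ t := by
            rw [ht]
            positivity
          have h3 := mul_le_mul_of_nonneg_left hx' ht0
          have h4 : t * ((1 / 2 + ε) * (p - 1) * D) = 2 * ε * (1 + 2 * ε) * D := by
            have : t * ((1 / 2 + ε) * (p - 1) * D) =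
                (t * (((p : ℝ) - 1) / 2)) * ((1 + 2 * ε) * D) := by ring
            rw [this, htc]
            ring
          linarith
      _ ≤ ∑ x ∈ range (p ^ D), Real.exp (t * sp p x) := by
          apply sum_le_sum_of_subset_of_nonneg (filter_subset _ _)
          intro x _ _
          exact (Real.exp_pos _).le
  have h5 : (S.card : ℝ) ≤ (p ^ D * Real.exp ((2 * ε + (2 * ε) ^ 2 / 2) * D)) *
      Real.exp (-(2 * ε * (1 + 2 * ε) * D)) := by
    have h6 := mul_le_mul_of_nonneg_right (h2.trans h1)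
      (Real.exp_pos (-(2 * ε * (1 + 2 * ε) * D))).le
    have h7 : (S.card : ℝ) * Real.exp (2 * ε * (1 + 2 * ε) * D) *
        Real.exp (-(2 * ε * (1 + 2 * ε) * D)) = S.card := by
      rw [mul_assoc, ← Real.exp_add]
      ring_nf
      simp
    rw [h7] at h6
    exact h6
  refine h5.trans (le_of_eq ?_)
  rw [mul_assoc, ← Real.exp_add]
  congr 2
  ring

end Pool.Agent.H27.Fact
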