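import Mathlib
import Pool.Agent.H27.Fact.Dig

/-! # Digit sums along arithmetic progressions; large primes -/

set_option autoImplicit false

open Finset

namespace Pool.Agent.H27.Fact

theorem card_ap {p q l D U : ℕ} (hp : 2 ≤ p) (hq : 0 < q) {ε : ℝ} (hε : 0 ≤ ε) (hlD : l ≤ D)
    (hl : p ^ l ≤ U) (hql : q ≤ p ^ l) (f : ℕ → ℕ) (S : Finset ℕ) (hS : S ⊆ range U)
    (h1 : ∀ u ∈ S, ∀ u' ∈ S, f u % p ^ l = f u' % p ^ l → u % p ^ l = u' % p ^ l)
    (h2 : ∀ u ∈ S, ∀ u' ∈ S, f u % q = f u' % q)
    (hinj : ∀ u ∈ S, ∀ u' ∈ S, f u = f u' → u = u')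
    (h3 : ∀ u ∈ S, f u < p ^ D) :
    ((S.filter (fun u => (sp p (f u) : ℝ) ≤ (1 / 2 - ε) * (p - 1) * D)).card : ℝ) ≤
      2 * U * Real.exp (-(2 * ε ^ 2 * l)) +
        2 * (p ^ D / q) * Real.exp (-(2 * ε ^ 2 * ((D - l : ℕ) : ℝ))) := by
  have hp1 : (1 : ℝ) < p := by exact_mod_cast (by omega : 1 < p)
  have hpl : 0 < p ^ l := by positivity
  set LA := (range (p ^ l)).filter (fun x => (sp p x : ℝ) ≤ (1 / 2 - ε) * (p - 1) * l) with hLA
  set LB := (range (p ^ (D - l))).filter
    (fun x => (sp p x : ℝ) ≤ (1 / 2 - ε) * (p - 1) * ((D - l : ℕ) : ℝ)) with hLB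
  set SA := S.filter (fun u => (sp p (f u % p ^ l) : ℝ) ≤ (1 / 2 - ε) * (p - 1) * l) with hSA
  set SB := S.filter (fun u => (sp p (f u / p ^ l) : ℝ) ≤
    (1 / 2 - ε) * (p - 1) * ((D - l : ℕ) : ℝ)) with hSB
  have hsub : S.filter (fun u => (sp p (f u) : ℝ) ≤ (1 / 2 - ε) * (p - 1) * D) ⊆ SA ∪ SB := by
    intro u hu
    rw [mem_filter] at hu
    rw [mem_union, hSA, hSB, mem_filter, mem_filter]
    by_contra hcon
    push Not at hcon
    have ha := hcon.1 hu.1
    have hb := hcon.2 hu.1
    have hc := hu.2
    rw [sp_mod_div hp l (f u)] at hc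
    have hD : (D : ℝ) = l + ((D - l : ℕ) : ℝ) := by
      rw [Nat.cast_sub hlD]
      ring
    rw [hD] at hc
    push_cast at hc ha hb
    linarith
  have hcA : (SA.card : ℝ) ≤ 2 * U * Real.exp (-(2 * ε ^ 2 * l)) := by
    have hcard : SA.card ≤ (LA ×ˢ range (U / p ^ l + 1)).card := by
      apply card_le_card_of_injOn (fun u => (f u % p ^ l, u / p ^ l))
      · intro u hu
        have hu' : u ∈ SA := hu
        rw [hSA, mem_filter] at hu'
        have hmem : (f u % p ^ l, u / p ^ l) ∈ LA ×ˢ range (U / p ^ l + 1) := by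
          rw [mem_product, hLA, mem_filter, mem_range, mem_range]
          refine ⟨⟨Nat.mod_lt _ hpl, hu'.2⟩, ?_⟩
          have : u < U := mem_range.1 (hS hu'.1)
          have := Nat.div_le_div_right (c := p ^ l) this.le
          show u / p ^ l < U / p ^ l + 1
          omega
        exact hmem
      · intro u hu u' hu' he
        have hu1 : u ∈ SA := hu
        have hu2 : u' ∈ SA := hu'
        rw [hSA, mem_filter] at hu1 hu2
        simp only [Prod.mk.injEq] at he
        have h5 := h1 u hu1.1 u' hu2.1 he.1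
        rw [← Nat.mod_add_div u (p ^ l), ← Nat.mod_add_div u' (p ^ l), h5, he.2]
    rw [card_product, card_range] at hcard
    have h6 : (SA.card : ℝ) ≤ LA.card * ((U / p ^ l : ℕ) + 1) := by exact_mod_cast hcard
    have h7 := card_low hp (ε := ε) l hε
    have h8 : ((U / p ^ l : ℕ) : ℝ) ≤ U / p ^ l := by
      have := @Nat.cast_div_le ℝ _ _ _ U (p ^ l)
      push_cast at this
      exact this
    have h9 : (p : ℝ) ^ l ≤ U := by exact_mod_cast hl
    have hpl' : (0 : ℝ) < (p : ℝ) ^ l := by positivity
    calc (SA.card : ℝ) ≤ LA.card * ((U / p ^ l : ℕ) + 1) := h6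
      _ ≤ (p ^ l * Real.exp (-(2 * ε ^ 2 * l))) * (U / p ^ l + 1) := by
          gcongr
      _ = (U + p ^ l) * Real.exp (-(2 * ε ^ 2 * l)) := by
          field_simp
      _ ≤ (U + U) * Real.exp (-(2 * ε ^ 2 * l)) := by gcongr
      _ = _ := by ring
  have hcB : (SB.card : ℝ) ≤ 2 * (p ^ D / q) * Real.exp (-(2 * ε ^ 2 * ((D - l : ℕ) : ℝ))) := by
    have hcard : SB.card ≤ (LB ×ˢ range (p ^ l / q + 1)).card := by
      apply card_le_card_of_injOn (fun u => (f u / p ^ l, f u % p ^ l / q))
      · intro u hu
        have hu' : u ∈ SB := hu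
        rw [hSB, mem_filter] at hu'
        have hmem : (f u / p ^ l, f u % p ^ l / q) ∈ LB ×ˢ range (p ^ l / q + 1) := by
          rw [mem_product, hLB, mem_filter, mem_range, mem_range]
          refine ⟨⟨?_, hu'.2⟩, ?_⟩
          · apply Nat.div_lt_of_lt_mul
            rw [← pow_add, Nat.add_sub_cancel' hlD]
            exact h3 u hu'.1
          · have := Nat.div_le_div_right (c := q) (Nat.mod_lt (f u) hpl).le
            show f u % p ^ l / q < p ^ l / q + 1
            omega
        exact hmem
      · intro u hu u' hu' he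
        have hu1 : u ∈ SB := hu
        have hu2 : u' ∈ SB := hu'
        rw [hSB, mem_filter] at hu1 hu2
        simp only [Prod.mk.injEq] at he
        apply hinj u hu1.1 u' hu2.1
        have h5 := h2 u hu1.1 u' hu2.1
        -- the residues mod `p ^ l` are congruent mod `q`
        have h6 : f u % p ^ l % q = f u' % p ^ l % q := by
          have ha := Nat.mod_add_div (f u) (p ^ l)
          have hb := Nat.mod_add_div (f u') (p ^ l)
          rw [he.1] at ha
          have hc : (f u % p ^ l + p ^ l * (f u' / p ^ l)) ≡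
              (f u' % p ^ l + p ^ l * (f u' / p ^ l)) [MOD q] := by
            rw [ha, hb]
            exact h5
          exact Nat.ModEq.add_right_cancel' _ hc
        have h7 : f u % p ^ l = f u' % p ^ l := by
          rw [← Nat.mod_add_div (f u % p ^ l) q, ← Nat.mod_add_div (f u' % p ^ l) q, h6, he.2]
        rw [← Nat.mod_add_div (f u) (p ^ l), ← Nat.mod_add_div (f u') (p ^ l), h7, he.1]
    rw [card_product, card_range] at hcard
    have h6 : (SB.card : ℝ) ≤ LB.card * ((p ^ l / q : ℕ) + 1) := by exact_mod_cast hcard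
    have h7 := card_low hp (ε := ε) (D - l) hε
    have h8 : ((p ^ l / q : ℕ) : ℝ) ≤ p ^ l / q := by
      have := @Nat.cast_div_le ℝ _ _ _ (p ^ l) q
      push_cast at this
      exact this
    have hq' : (0 : ℝ) < q := by exact_mod_cast hq
    have h9 : (q : ℝ) ≤ (p : ℝ) ^ l := by exact_mod_cast hql
    have hone : (1 : ℝ) ≤ p ^ l / q := by
      rw [le_div_iff₀ hq']
      linarith
    have hpow : (p : ℝ) ^ (D - l) * p ^ l = p ^ D := by
      rw [← pow_add, Nat.sub_add_cancel hlD]
    calc (SB.card : ℝ) ≤ LB.card * ((p ^ l / q : ℕ) + 1) := h6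
      _ ≤ (p ^ (D - l) * Real.exp (-(2 * ε ^ 2 * ((D - l : ℕ) : ℝ)))) * (p ^ l / q + p ^ l / q) := by
          gcongr
      _ = 2 * (((p : ℝ) ^ (D - l) * p ^ l) / q) * Real.exp (-(2 * ε ^ 2 * ((D - l : ℕ) : ℝ))) := by
          ring
      _ = _ := by rw [hpow]
  have hfin : ((S.filter (fun u => (sp p (f u) : ℝ) ≤ (1 / 2 - ε) * (p - 1) * D)).card : ℝ) ≤
      SA.card + SB.card := by
    have h5 := (card_le_card hsub).trans (card_union_le SA SB)
    exact_mod_cast h5
  linarith

/-- large primes -/
theorem val_large {p : ℕ} (hp : p.Prime) {n g a₁ a₂ b K : ℕ} (hsum : a₁ + a₂ + K * b = n + g)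
    (h : g ≤ a₁ % p ∨ g ≤ (n + g) % p) :
    (a₁.factorial).factorization p + (a₂.factorial).factorization p +
      K * (b.factorial).factorization p ≤ (n.factorial).factorization p := by
  rcases Nat.eq_zero_or_pos K with hK | hK
  · subst hK
    rw [zero_mul, add_zero] at hsum ⊢
    set B := Nat.log p (n + g) + 1 with hB
    have l1 : Nat.log p a₁ < B := by
      have := Nat.log_mono_right (b := p) (by omega : a₁ ≤ n + g)
      omega
    have l2 : Nat.log p a₂ < B := by
      have := Nat.log_mono_right (b := p) (by omega : a₂ ≤ n + g)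
      omega
    have l3 : Nat.log p n < B := by
      have := Nat.log_mono_right (b := p) (by omega : n ≤ n + g)
      omega
    rw [Nat.factorization_factorial hp l1, Nat.factorization_factorial hp l2,
      Nat.factorization_factorial hp l3, ← sum_add_distrib]
    apply sum_le_sum
    intro i hi
    have hi1 : 1 ≤ i := (mem_Ico.1 hi).1
    have hpi : 0 < p ^ i := pow_pos hp.pos i
    have hdvd : p ∣ p ^ i := dvd_pow_self p (by omega)
    set P := p ^ i with hP
    have e1 := Nat.mod_add_div a₁ P
    have e2 := Nat.mod_add_div a₂ P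
    have hr : g ≤ a₁ % P + a₂ % P := by
      rcases h with h | h
      · have : a₁ % p ≤ a₁ % P := by
          rw [← Nat.mod_mod_of_dvd a₁ hdvd]
          exact Nat.mod_le _ _
        omega
      · have h5 : (n + g) % p ≤ (n + g) % P := by
          rw [← Nat.mod_mod_of_dvd (n + g) hdvd]
          exact Nat.mod_le _ _
        have h6 : (n + g) % P ≤ a₁ % P + a₂ % P := by
          rw [← hsum, Nat.add_mod]
          exact Nat.mod_le _ _
        omega
    rw [Nat.le_div_iff_mul_le hpi]
    have : (a₁ / P + a₂ / P) * P = P * (a₁ / P) + P * (a₂ / P) := by ring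
    rw [this]
    omega
  · set B := Nat.log p (n + g) + 1 with hB
    have hb : b ≤ K * b := Nat.le_mul_of_pos_left b hK
    have l1 : Nat.log p a₁ < B := by
      have := Nat.log_mono_right (b := p) (by omega : a₁ ≤ n + g)
      omega
    have l2 : Nat.log p a₂ < B := by
      have := Nat.log_mono_right (b := p) (by omega : a₂ ≤ n + g)
      omega
    have l3 : Nat.log p n < B := by
      have := Nat.log_mono_right (b := p) (by omega : n ≤ n + g)
      omega
    have l4 : Nat.log p b < B := by
      have := Nat.log_mono_right (b := p) (by omega : b ≤ n + g)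
      omega
    rw [Nat.factorization_factorial hp l1, Nat.factorization_factorial hp l2,
      Nat.factorization_factorial hp l3, Nat.factorization_factorial hp l4, mul_sum,
      ← sum_add_distrib, ← sum_add_distrib]
    apply sum_le_sum
    intro i hi
    have hi1 : 1 ≤ i := (mem_Ico.1 hi).1
    have hpi : 0 < p ^ i := pow_pos hp.pos i
    have hdvd : p ∣ p ^ i := dvd_pow_self p (by omega)
    set P := p ^ i with hP
    have e1 := Nat.mod_add_div a₁ P
    have e2 := Nat.mod_add_div a₂ P
    have e3 := Nat.mod_add_div b P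
    have e4 : K * b = K * (b % P) + P * (K * (b / P)) := by
      calc K * b = K * (b % P + P * (b / P)) := by rw [e3]
        _ = _ := by ring
    have hr : g ≤ a₁ % P + a₂ % P + K * (b % P) := by
      rcases h with h | h
      · have : a₁ % p ≤ a₁ % P := by
          rw [← Nat.mod_mod_of_dvd a₁ hdvd]
          exact Nat.mod_le _ _
        omega
      · have h5 : (n + g) % p ≤ (n + g) % P := by
          rw [← Nat.mod_mod_of_dvd (n + g) hdvd]
          exact Nat.mod_le _ _
        have h6 : (n + g) % P ≤ a₁ % P + a₂ % P + K * (b % P) := by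
          have h7 : (n + g) = (a₁ % P + a₂ % P + K * (b % P)) +
              P * (a₁ / P + a₂ / P + K * (b / P)) := by
            rw [← hsum, e4]
            conv_lhs => rw [← e1, ← e2]
            ring
          rw [h7, Nat.add_mul_mod_self_left]
          exact Nat.mod_le _ _
        omega
    rw [Nat.le_div_iff_mul_le hpi]
    have h8 : (a₁ / P + a₂ / P + K * (b / P)) * P =
        P * (a₁ / P) + P * (a₂ / P) + P * (K * (b / P)) := by ring
    rw [h8]
    omega

/-- small primes: the condition in terms of digit sums -/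
theorem val_small {p : ℕ} (hp : p.Prime) {n g a₁ a₂ b K : ℕ} (hsum : a₁ + a₂ + K * b = n + g)
    (h : g + sp p n ≤ sp p a₁ + sp p a₂ + K * sp p b) :
    (a₁.factorial).factorization p + (a₂.factorial).factorization p +
      K * (b.factorial).factorization p ≤ (n.factorial).factorization p := by
  have h1 := legendre hp a₁
  have h2 := legendre hp a₂
  have h3 := legendre hp b
  have h4 := legendre hp n
  have hp1 : 0 < p - 1 := by
    have := hp.two_le
    omega
  refine Nat.le_of_mul_le_mul_left ?_ hp1
  have h5 : K * ((p - 1) * (b.factorial).factorization p) + K * sp p b = K * b := by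
    rw [← Nat.mul_add, h3]
  have h6 : (p - 1) * ((a₁.factorial).factorization p + (a₂.factorial).factorization p +
      K * (b.factorial).factorization p) = (p - 1) * (a₁.factorial).factorization p +
      (p - 1) * (a₂.factorial).factorization p +
        K * ((p - 1) * (b.factorial).factorization p) := by ring
  rw [h6]
  omega

theorem card_primeFactors_le (n : ℕ) (hn : n ≠ 0) : n.primeFactors.card ≤ Nat.log 2 n := by
  apply Nat.le_log_of_pow_le (by norm_num)
  calc 2 ^ n.primeFactors.card = ∏ _p ∈ n.primeFactors, 2 := by rw [prod_const]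
    _ ≤ ∏ p ∈ n.primeFactors, p := by
        apply prod_le_prod'
        intro p hp
        exact (Nat.prime_of_mem_primeFactors hp).two_le
    _ ≤ n := Nat.le_of_dvd (Nat.pos_of_ne_zero hn) (Nat.prod_primeFactors_dvd n)

end Pool.Agent.H27.Fact
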