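import Mathlib
import Pool.Prelude.Def_F_a9b43d14
import Pool.Agent.H27.Fact.AP

/-! # Existence of a tuple with large excess, with explicit hypotheses -/

set_option autoImplicit false

open Finset

namespace Pool.Agent.H27.Fact

theorem bddAbove_g (k n : ℕ) : BddAbove
    { ((∑ i, a i) - n) | (a : Fin k → ℕ) (_ : (∏ i, (a i).factorial) ∣ n.factorial) } := by
  refine ⟨k * (n + 1), ?_⟩
  rintro _ ⟨a, ha, rfl⟩
  have h1 : ∀ i, a i ≤ n + 1 := by
    intro i
    have h2 : (a i).factorial ∣ n.factorial := (dvd_prod_of_mem _ (mem_univ i)).trans ha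
    have h3 := Nat.le_of_dvd (Nat.factorial_pos n) h2
    by_contra hcon
    push Not at hcon
    have h4 : n.factorial < (a i).factorial := by
      have h5 : (n + 1).factorial < (a i).factorial :=
        (Nat.factorial_lt (by omega)).2 hcon
      have h6 : n.factorial ≤ (n + 1).factorial := Nat.factorial_le (by omega)
      omega
    omega
  calc (∑ i, a i) - n ≤ ∑ i, a i := Nat.sub_le _ _
    _ ≤ ∑ _i : Fin k, (n + 1) := sum_le_sum fun i _ => h1 i
    _ = k * (n + 1) := by simp

theorem le_g {K n g a₁ a₂ b : ℕ} (hsum : a₁ + a₂ + K * b = n + g)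
    (h : ∀ p : ℕ, p.Prime → (a₁.factorial).factorization p + (a₂.factorial).factorization p +
      K * (b.factorial).factorization p ≤ (n.factorial).factorization p) :
    g ≤ Nfa7bfd82.g (K + 2) n := by
  apply le_csSup (bddAbove_g (K + 2) n)
  refine ⟨Fin.cons a₁ (Fin.cons a₂ (fun _ : Fin K => b)), ?_, ?_⟩
  · have hprod : (∏ i, (Fin.cons (α := fun _ => ℕ) a₁
        (Fin.cons (α := fun _ => ℕ) a₂ (fun _ : Fin K => b)) i).factorial) =
        a₁.factorial * (a₂.factorial * b.factorial ^ K) := by
      rw [Fin.prod_univ_succ, Fin.prod_univ_succ]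
      simp
    rw [hprod]
    have n1 := Nat.factorial_ne_zero a₁
    have n2 := Nat.factorial_ne_zero a₂
    have n3 := pow_ne_zero K (Nat.factorial_ne_zero b)
    rw [← Nat.factorization_le_iff_dvd (mul_ne_zero n1 (mul_ne_zero n2 n3))
      (Nat.factorial_ne_zero n), Nat.factorization_mul n1 (mul_ne_zero n2 n3),
      Nat.factorization_mul n2 n3, Nat.factorization_pow]
    intro p
    by_cases hp : p.Prime
    · have := h p hp
      simp only [Finsupp.coe_add, Pi.add_apply, Finsupp.coe_smul, Pi.smul_apply, smul_eq_mul]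
      omega
    · simp [Nat.factorization_eq_zero_of_not_prime _ hp]
  · rw [Fin.sum_univ_succ, Fin.sum_univ_succ]
    simp only [Fin.cons_zero, Fin.cons_succ, sum_const, card_univ, Fintype.card_fin,
      smul_eq_mul]
    omega

/-- number of large primes with a restricted residue of `N` -/
theorem card_R_le {N g P₀ : ℕ} (hgN : g ≤ N) :
    ((range (N + 1)).filter (fun p => p.Prime ∧ P₀ < p ∧ N % p < g)).card ≤ g * Nat.log 2 N := by
  have hsub : (range (N + 1)).filter (fun p => p.Prime ∧ P₀ < p ∧ N % p < g) ⊆
      (range g).biUnion (fun r => (N - r).primeFactors) := by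
    intro p hp
    rw [mem_filter] at hp
    rw [mem_biUnion]
    refine ⟨N % p, mem_range.2 hp.2.2.2, ?_⟩
    rw [Nat.mem_primeFactors]
    refine ⟨hp.2.1, Nat.dvd_sub_mod N, ?_⟩
    have := hp.2.2.2
    omega
  refine (card_le_card hsub).trans (card_biUnion_le.trans ?_)
  calc ∑ r ∈ range g, (N - r).primeFactors.card ≤ ∑ _r ∈ range g, Nat.log 2 N := by
        apply sum_le_sum
        intro r hr
        have hr' : r < g := mem_range.1 hr
        exact (card_primeFactors_le _ (by omega)).trans
          (Nat.log_mono_right (Nat.sub_le _ _))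
    _ = g * Nat.log 2 N := by simp

theorem card_bad3 {p q U g : ℕ} (hpq : Nat.Coprime p q) (hq : 0 < q) :
    ((range U).filter (fun u => (q * (u + 1) - 1) % p < g)).card ≤ g * (U / p + 1) := by
  have h : ((range U).filter (fun u => (q * (u + 1) - 1) % p < g)).card ≤
      (range g ×ˢ range (U / p + 1)).card := by
    apply card_le_card_of_injOn (fun u => ((q * (u + 1) - 1) % p, u / p))
    · intro u hu
      have hu' : u ∈ (range U).filter (fun u => (q * (u + 1) - 1) % p < g) := hu
      rw [mem_filter, mem_range] at hu'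
      have hmem : ((q * (u + 1) - 1) % p, u / p) ∈ range g ×ˢ range (U / p + 1) := by
        rw [mem_product, mem_range, mem_range]
        refine ⟨hu'.2, ?_⟩
        have := Nat.div_le_div_right (c := p) hu'.1.le
        show u / p < U / p + 1
        omega
      exact hmem
    · intro u hu u' hu' he
      simp only [Prod.mk.injEq] at he
      have h1 : (q * (u + 1) - 1) ≡ (q * (u' + 1) - 1) [MOD p] := he.1
      have h2 : q * (u + 1) ≡ q * (u' + 1) [MOD p] := by
        have h3 := h1.add_right 1
        have e1 : q * (u + 1) - 1 + 1 = q * (u + 1) :=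
          Nat.sub_add_cancel (Nat.mul_pos hq (Nat.succ_pos u))
        have e2 : q * (u' + 1) - 1 + 1 = q * (u' + 1) :=
          Nat.sub_add_cancel (Nat.mul_pos hq (Nat.succ_pos u'))
        rw [e1, e2] at h3
        exact h3
      have h4 : u + 1 ≡ u' + 1 [MOD p] := Nat.ModEq.cancel_left_of_coprime (by
        exact hpq) h2
      have h5 : u ≡ u' [MOD p] := Nat.ModEq.add_right_cancel' 1 h4
      have h6 : u % p = u' % p := h5
      rw [← Nat.mod_add_div u p, ← Nat.mod_add_div u' p, h6, he.2]
  rw [card_product, card_range, card_range] at h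
  exact h

end Pool.Agent.H27.Fact
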