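import Mathlib
import Pool.Agent.H27.Fact.Exist

/-! # Every integer with typical digit sums has a tuple with large excess -/

set_option autoImplicit false

open Finset

namespace Pool.Agent.H27.Fact

theorem card_bad1 {p e q U l D M : ℕ} (hp : p.Prime) (hpq : Nat.Coprime p q) (hq : 0 < q)
    {ε : ℝ} (hε : 0 ≤ ε) (hql : q ≤ p ^ l) (hlU : p ^ l ≤ U) (hM : M ≤ l) (hlD : l + M + e ≤ D)
    (hX : ∀ u < U, p ^ e * q * (u + 1) ≤ p ^ D) :
    (((range U).filter (fun u => (sp p (q * (u + 1) - 1) : ℝ) ≤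
      (1 / 2 - ε) * (p - 1) * ((D - e : ℕ) : ℝ))).card : ℝ) ≤
      (2 * U + 2 * p ^ D / (p ^ e * q)) * Real.exp (-(2 * ε ^ 2 * M)) := by
  have hsub : ∀ u : ℕ, q * (u + 1) - 1 + 1 = q * (u + 1) := fun u =>
    Nat.sub_add_cancel (Nat.mul_pos hq (Nat.succ_pos u))
  have h := card_ap (p := p) (q := q) (l := l) (D := D - e) (U := U) hp.two_le hq hε (by omega)
    hlU hql (fun u => q * (u + 1) - 1) (range U) (Subset.refl _) ?_ ?_ ?_ ?_
  · refine h.trans ?_
    have hpe : (0 : ℝ) < (p : ℝ) ^ e := by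
      have := hp.pos
      positivity
    have hq' : (0 : ℝ) < q := by exact_mod_cast hq
    have e1 : (p : ℝ) ^ (D - e) / q = p ^ D / (p ^ e * q) := by
      rw [div_eq_div_iff hq'.ne' (by positivity)]
      have : (p : ℝ) ^ (D - e) * p ^ e = p ^ D := by
        rw [← pow_add, Nat.sub_add_cancel (by omega)]
      rw [← this]
      ring
    have e2 : Real.exp (-(2 * ε ^ 2 * l)) ≤ Real.exp (-(2 * ε ^ 2 * M)) := by
      apply Real.exp_le_exp.2
      have : (M : ℝ) ≤ l := by exact_mod_cast hM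
      nlinarith [sq_nonneg ε]
    have e3 : Real.exp (-(2 * ε ^ 2 * ((D - e - l : ℕ) : ℝ))) ≤ Real.exp (-(2 * ε ^ 2 * M)) := by
      apply Real.exp_le_exp.2
      have : (M : ℝ) ≤ ((D - e - l : ℕ) : ℝ) := by exact_mod_cast (by omega : M ≤ D - e - l)
      nlinarith [sq_nonneg ε]
    rw [e1]
    have e4 : (0 : ℝ) ≤ p ^ D / (p ^ e * q) := by positivity
    calc 2 * (U : ℝ) * Real.exp (-(2 * ε ^ 2 * l)) +
          2 * ((p : ℝ) ^ D / (p ^ e * q)) * Real.exp (-(2 * ε ^ 2 * ((D - e - l : ℕ) : ℝ)))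
        ≤ 2 * (U : ℝ) * Real.exp (-(2 * ε ^ 2 * M)) +
          2 * ((p : ℝ) ^ D / (p ^ e * q)) * Real.exp (-(2 * ε ^ 2 * M)) := by gcongr
      _ = _ := by ring
  · intro u _ u' _ he
    have h1 : (q * (u + 1) - 1) ≡ (q * (u' + 1) - 1) [MOD p ^ l] := he
    have h2 := h1.add_right 1
    rw [hsub, hsub] at h2
    have h3 : u + 1 ≡ u' + 1 [MOD p ^ l] :=
      Nat.ModEq.cancel_left_of_coprime (Nat.Coprime.pow_left l hpq) h2
    exact Nat.ModEq.add_right_cancel' 1 h3
  · intro u _ u' _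
    have h1 : (q * (u + 1) - 1) + 1 ≡ (q * (u' + 1) - 1) + 1 [MOD q] := by
      rw [hsub, hsub]
      exact ((Nat.modEq_zero_iff_dvd.2 (dvd_mul_right q _)).trans
        (Nat.modEq_zero_iff_dvd.2 (dvd_mul_right q _)).symm)
    exact Nat.ModEq.add_right_cancel' 1 h1
  · intro u _ u' _ he
    have he' : q * (u + 1) - 1 = q * (u' + 1) - 1 := he
    have h1 : q * (u + 1) = q * (u' + 1) := by
      rw [← hsub u, ← hsub u', he']
    have := Nat.eq_of_mul_eq_mul_left hq h1
    omega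
  · intro u hu
    have h1 := hX u (mem_range.1 hu)
    have h2 : p ^ e * (q * (u + 1)) ≤ p ^ e * p ^ (D - e) := by
      rw [← pow_add, Nat.add_sub_cancel' (by omega : e ≤ D), ← mul_assoc]
      exact h1
    have h3 := Nat.le_of_mul_le_mul_left h2 (pow_pos hp.pos e)
    have h4 : 0 < q * (u + 1) := Nat.mul_pos hq (Nat.succ_pos u)
    show q * (u + 1) - 1 < p ^ (D - e)
    omega

theorem card_bad2 {p e q U l D M C : ℕ} (hp : p.Prime) (hpq : Nat.Coprime p q) (hq : 0 < q)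
    {ε : ℝ} (hε : 0 ≤ ε) (hql : q ≤ p ^ l) (hlU : p ^ l ≤ U) (hM : M ≤ l) (hlD : l + M + e ≤ D)
    (hC : C < p ^ (D - e)) (hCU : ∀ u < U, q * (u + 1) ≤ C) :
    (((range U).filter (fun u => (sp p (C - q * (u + 1)) : ℝ) ≤
      (1 / 2 - ε) * (p - 1) * ((D - e : ℕ) : ℝ))).card : ℝ) ≤
      (2 * U + 2 * p ^ D / (p ^ e * q)) * Real.exp (-(2 * ε ^ 2 * M)) := by
  have h := card_ap (p := p) (q := q) (l := l) (D := D - e) (U := U) hp.two_le hq hε (by omega)
    hlU hql (fun u => C - q * (u + 1)) (range U) (Subset.refl _) ?_ ?_ ?_ ?_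
  · refine h.trans ?_
    have hpe : (0 : ℝ) < (p : ℝ) ^ e := by
      have := hp.pos
      positivity
    have hq' : (0 : ℝ) < q := by exact_mod_cast hq
    have e1 : (p : ℝ) ^ (D - e) / q = p ^ D / (p ^ e * q) := by
      rw [div_eq_div_iff hq'.ne' (by positivity)]
      have : (p : ℝ) ^ (D - e) * p ^ e = p ^ D := by
        rw [← pow_add, Nat.sub_add_cancel (by omega)]
      rw [← this]
      ring
    have e2 : Real.exp (-(2 * ε ^ 2 * l)) ≤ Real.exp (-(2 * ε ^ 2 * M)) := by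
      apply Real.exp_le_exp.2
      have : (M : ℝ) ≤ l := by exact_mod_cast hM
      nlinarith [sq_nonneg ε]
    have e3 : Real.exp (-(2 * ε ^ 2 * ((D - e - l : ℕ) : ℝ))) ≤ Real.exp (-(2 * ε ^ 2 * M)) := by
      apply Real.exp_le_exp.2
      have : (M : ℝ) ≤ ((D - e - l : ℕ) : ℝ) := by exact_mod_cast (by omega : M ≤ D - e - l)
      nlinarith [sq_nonneg ε]
    rw [e1]
    have e4 : (0 : ℝ) ≤ p ^ D / (p ^ e * q) := by positivity
    calc 2 * (U : ℝ) * Real.exp (-(2 * ε ^ 2 * l)) +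
          2 * ((p : ℝ) ^ D / (p ^ e * q)) * Real.exp (-(2 * ε ^ 2 * ((D - e - l : ℕ) : ℝ)))
        ≤ 2 * (U : ℝ) * Real.exp (-(2 * ε ^ 2 * M)) +
          2 * ((p : ℝ) ^ D / (p ^ e * q)) * Real.exp (-(2 * ε ^ 2 * M)) := by gcongr
      _ = _ := by ring
  · intro u hu u' hu' he
    have c1 := hCU u (mem_range.1 hu)
    have c2 := hCU u' (mem_range.1 hu')
    have h1 : (C - q * (u + 1)) ≡ (C - q * (u' + 1)) [MOD p ^ l] := he
    have h2 : q * (u' + 1) ≡ q * (u + 1) [MOD p ^ l] := by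
      have h3 : (C - q * (u + 1)) + q * (u + 1) ≡ (C - q * (u' + 1)) + q * (u' + 1)
          [MOD p ^ l] := by
        rw [Nat.sub_add_cancel c1, Nat.sub_add_cancel c2]
      exact (Nat.ModEq.add_left_cancel h1 h3).symm
    have h3 : u' + 1 ≡ u + 1 [MOD p ^ l] :=
      Nat.ModEq.cancel_left_of_coprime (Nat.Coprime.pow_left l hpq) h2
    exact (Nat.ModEq.add_right_cancel' 1 h3).symm
  · intro u hu u' hu'
    have c1 := hCU u (mem_range.1 hu)
    have c2 := hCU u' (mem_range.1 hu')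
    have h3 : (C - q * (u + 1)) + q * (u + 1) ≡ (C - q * (u' + 1)) + q * (u' + 1) [MOD q] := by
      rw [Nat.sub_add_cancel c1, Nat.sub_add_cancel c2]
    have h4 : q * (u + 1) ≡ q * (u' + 1) [MOD q] :=
      ((Nat.modEq_zero_iff_dvd.2 (dvd_mul_right q _)).trans
        (Nat.modEq_zero_iff_dvd.2 (dvd_mul_right q _)).symm)
    exact Nat.ModEq.add_right_cancel h4 h3
  · intro u hu u' hu' he
    have c1 := hCU u (mem_range.1 hu)
    have c2 := hCU u' (mem_range.1 hu')
    have he' : C - q * (u + 1) = C - q * (u' + 1) := he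
    have h1 : q * (u + 1) = q * (u' + 1) := by omega
    have := Nat.eq_of_mul_eq_mul_left hq h1
    omega
  · intro u _
    exact lt_of_le_of_lt (Nat.sub_le _ _) hC

theorem card_small_le (P₀ : ℕ) : ((range (P₀ + 1)).filter Nat.Prime).card ≤ P₀ := by
  have h : (range (P₀ + 1)).filter Nat.Prime ⊆ (range (P₀ + 1)).erase 0 := by
    intro p hp
    rw [mem_filter] at hp
    rw [mem_erase]
    exact ⟨hp.2.ne_zero, hp.1⟩
  refine (card_le_card h).trans ?_
  rw [card_erase_of_mem (mem_range.2 (by omega)), card_range]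
  omega

theorem exists_good {K n g Q U P₀ M : ℕ} {ε T : ℝ} {D : ℕ → ℕ} (hQ : 0 < Q)
    (hε : 0 ≤ ε) (hT0 : 0 ≤ T) (hP0 : 0 < P₀) (hPQ : ∀ p : ℕ, p.Prime → p ∣ Q → p ≤ P₀)
    (hX : ∀ p : ℕ, p.Prime → p ≤ P₀ → n + g + K + 1 < p ^ D p)
    (hT : ∀ p : ℕ, p.Prime → p ≤ P₀ → (p : ℝ) ^ D p ≤ T)
    (hsize : Q * ((K + 1) * U) ≤ n)
    (hn1 : ∀ p : ℕ, p.Prime → p ≤ P₀ → (sp p n : ℝ) ≤ (1 / 2 + ε) * (p - 1) * D p)
    (hn2 : ∀ p : ℕ, p.Prime → p ≤ P₀ → (1 / 2 - ε) * (p - 1) * (Q.factorization p) ≤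
      sp p ((n + g + K + 1) % p ^ (Q.factorization p)))
    (hl : ∀ p : ℕ, p.Prime → p ≤ P₀ → ∃ l, Q / p ^ Q.factorization p ≤ p ^ l ∧ p ^ l ≤ U ∧
      M ≤ l ∧ l + M + Q.factorization p ≤ D p)
    (hgain : ∀ p : ℕ, p.Prime → p ≤ P₀ → (g : ℝ) ≤
      (p - 1) * (K + 1) * ((D p + Q.factorization p) / 2 - 3 * ε * D p))
    (hcount : 2 * (P₀ : ℝ) * ((2 * U + 2 * T / Q) * Real.exp (-(2 * ε ^ 2 * M))) +
      g * Nat.log 2 (n + g) * (g * (U / P₀ + 1)) < U) :
    g ≤ Nfa7bfd82.g (K + 2) n := by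
  set m := n + g + K + 1 with hm
  set E : ℝ := (2 * U + 2 * T / Q) * Real.exp (-(2 * ε ^ 2 * M)) with hE
  set e : ℕ → ℕ := fun p => Q.factorization p with he
  set q : ℕ → ℕ := fun p => Q / p ^ Q.factorization p with hqdef
  have hQe : ∀ p : ℕ, p ^ e p * q p = Q := fun p => Nat.ordProj_mul_ordCompl_eq_self Q p
  have hq0 : ∀ p : ℕ, 0 < q p := by
    intro p
    rcases Nat.eq_zero_or_pos (q p) with h | h
    · have := hQe p
      rw [h, mul_zero] at this
      omega
    · exact h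
  have hcop : ∀ p : ℕ, p.Prime → Nat.Coprime p (q p) := fun p hp =>
    Nat.coprime_ordCompl hp hQ.ne'
  have hQ' : (0 : ℝ) < Q := by exact_mod_cast hQ
  have hE0 : 0 ≤ E := by
    rw [hE]
    positivity
  have hP0' : (0 : ℝ) < P₀ := by exact_mod_cast hP0
  -- size facts
  have hsz : ∀ u < U, ∀ v < U, Q * ((u + 1) + K * (v + 1)) ≤ n := by
    intro u hu v hv
    refine le_trans (Nat.mul_le_mul_left Q ?_) hsize
    calc (u + 1) + K * (v + 1) ≤ U + K * U := by
          have : K * (v + 1) ≤ K * U := Nat.mul_le_mul_left K hv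
          omega
      _ = (K + 1) * U := by ring
  have hsz1 : ∀ u < U, Q * (u + 1) ≤ n := by
    intro u hu
    refine le_trans (Nat.mul_le_mul_left Q ?_) (hsz u hu u hu)
    omega
  -- bad sets
  set S := (range (P₀ + 1)).filter Nat.Prime with hS
  have hScard : (S.card : ℝ) ≤ P₀ := by exact_mod_cast card_small_le P₀
  have hSmem : ∀ p, p ∈ S ↔ p.Prime ∧ p ≤ P₀ := by
    intro p
    rw [hS, mem_filter, mem_range]
    constructor
    · rintro ⟨h1, h2⟩
      exact ⟨h2, by omega⟩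
    · rintro ⟨h1, h2⟩
      exact ⟨by omega, h1⟩
  let B1 : ℕ → Finset ℕ := fun p => (range U).filter (fun u => (sp p (q p * (u + 1) - 1) : ℝ) ≤
      (1 / 2 - ε) * (p - 1) * ((D p - e p : ℕ) : ℝ))
  have hB1 : ∀ p ∈ S, ((B1 p).card : ℝ) ≤ E := by
    intro p hp
    obtain ⟨hpp, hpP⟩ := (hSmem p).1 hp
    obtain ⟨l, l1, l2, l3, l4⟩ := hl p hpp hpP
    have h1 := card_bad1 (p := p) (e := e p) (q := q p) (U := U) (l := l) (D := D p) (M := M) hpp
      (hcop p hpp) (hq0 p) hε l1 l2 l3 l4 (by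
        intro u hu
        rw [hQe]
        have h2 := hsz1 u hu
        have h3 := hX p hpp hpP
        omega)
    refine h1.trans ?_
    rw [hE]
    have h4 : (p : ℝ) ^ e p * (q p : ℝ) = Q := by exact_mod_cast hQe p
    rw [h4]
    have h5 := hT p hpp hpP
    gcongr
  have hU1 : ∃ v < U, ∀ p ∈ S, v ∉ B1 p := by
    by_contra hcon
    push Not at hcon
    have hsub : range U ⊆ S.biUnion B1 := by
      intro v hv
      obtain ⟨p, hp, hvp⟩ := hcon v (mem_range.1 hv)
      exact mem_biUnion.2 ⟨p, hp, hvp⟩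
    have h1 : (U : ℝ) ≤ ∑ p ∈ S, ((B1 p).card : ℝ) := by
      have h2 := (card_le_card hsub).trans card_biUnion_le
      rw [card_range] at h2
      exact_mod_cast h2
    have h2 : ∑ p ∈ S, ((B1 p).card : ℝ) ≤ P₀ * E := by
      calc ∑ p ∈ S, ((B1 p).card : ℝ) ≤ ∑ _p ∈ S, E := sum_le_sum hB1
        _ = S.card * E := by rw [sum_const, nsmul_eq_mul]
        _ ≤ P₀ * E := by gcongr
    have h3 : (0 : ℝ) ≤ g * Nat.log 2 (n + g) * (g * (U / P₀ + 1)) := by positivity
    have h4 : (P₀ : ℝ) * E ≤ 2 * P₀ * E := by nlinarith [mul_nonneg hP0'.le hE0]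
    linarith
  obtain ⟨v, hv, hvB⟩ := hU1
  let C : ℕ → ℕ := fun p => m / p ^ e p - q p * (K * (v + 1))
  let B2 : ℕ → Finset ℕ := fun p => (range U).filter (fun u => (sp p (C p - q p * (u + 1)) : ℝ) ≤
      (1 / 2 - ε) * (p - 1) * ((D p - e p : ℕ) : ℝ))
  have hCU : ∀ p : ℕ, p.Prime → ∀ u < U, q p * (u + 1) + q p * (K * (v + 1)) ≤ m / p ^ e p := by
    intro p hp u hu
    rw [Nat.le_div_iff_mul_le (pow_pos hp.pos _)]
    calc (q p * (u + 1) + q p * (K * (v + 1))) * p ^ e p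
        = (p ^ e p * q p) * ((u + 1) + K * (v + 1)) := by ring
      _ = Q * ((u + 1) + K * (v + 1)) := by rw [hQe]
      _ ≤ m := by
        have := hsz u hu v hv
        omega
  have hB2 : ∀ p ∈ S, ((B2 p).card : ℝ) ≤ E := by
    intro p hp
    obtain ⟨hpp, hpP⟩ := (hSmem p).1 hp
    obtain ⟨l, l1, l2, l3, l4⟩ := hl p hpp hpP
    have h1 := card_bad2 (p := p) (e := e p) (q := q p) (U := U) (l := l) (D := D p) (M := M)
      (C := C p) hpp (hcop p hpp) (hq0 p) hε l1 l2 l3 l4 (by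
        have h2 : C p ≤ m / p ^ e p := Nat.sub_le _ _
        refine lt_of_le_of_lt h2 ?_
        apply Nat.div_lt_of_lt_mul
        rw [← pow_add]
        have h3 : e p + (D p - e p) = D p := by
          have : Q.factorization p ≤ D p := by omega
          exact Nat.add_sub_cancel' this
        rw [h3]
        exact hX p hpp hpP) (by
        intro u hu
        have := hCU p hpp u hu
        show q p * (u + 1) ≤ m / p ^ e p - q p * (K * (v + 1))
        omega)
    refine h1.trans ?_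
    rw [hE]
    have h4 : (p : ℝ) ^ e p * (q p : ℝ) = Q := by exact_mod_cast hQe p
    rw [h4]
    have h5 := hT p hpp hpP
    gcongr
  set R := (range (n + g + 1)).filter (fun p => p.Prime ∧ P₀ < p ∧ (n + g) % p < g) with hR
  let B3 : ℕ → Finset ℕ := fun p => (range U).filter (fun u => (Q * (u + 1) - 1) % p < g)
  have hB3 : ∀ p ∈ R, ((B3 p).card : ℝ) ≤ g * (U / P₀ + 1) := by
    intro p hp
    rw [hR, mem_filter] at hp
    have hpp : p.Prime := hp.2.1
    have hc : Nat.Coprime p Q := by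
      rw [Nat.Prime.coprime_iff_not_dvd hpp]
      intro hd
      have := hPQ p hpp hd
      omega
    have h1 := card_bad3 (p := p) (q := Q) (U := U) (g := g) hc hQ
    have h2 : ((B3 p).card : ℝ) ≤ g * ((U / p : ℕ) + 1) := by exact_mod_cast h1
    refine h2.trans ?_
    have h3 : ((U / p : ℕ) : ℝ) ≤ U / P₀ := by
      have h4 : ((U / p : ℕ) : ℝ) ≤ (U : ℝ) / p := Nat.cast_div_le
      have h5 : (U : ℝ) / p ≤ U / P₀ := by
        have : (P₀ : ℝ) ≤ p := by exact_mod_cast hp.2.2.1.le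
        gcongr
      exact h4.trans h5
    gcongr
  have hRcard : (R.card : ℝ) ≤ g * Nat.log 2 (n + g) := by
    have := card_R_le (N := n + g) (g := g) (P₀ := P₀) (by omega)
    exact_mod_cast this
  have hU2 : ∃ u < U, (∀ p ∈ S, u ∉ B1 p) ∧ (∀ p ∈ S, u ∉ B2 p) ∧ ∀ p ∈ R, u ∉ B3 p := by
    by_contra hcon
    push Not at hcon
    have hsub : range U ⊆ (S.biUnion B1 ∪ S.biUnion B2) ∪ R.biUnion B3 := by
      intro u hu
      rw [mem_union, mem_union]
      by_cases h1 : ∀ p ∈ S, u ∉ B1 p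
      · by_cases h2 : ∀ p ∈ S, u ∉ B2 p
        · obtain ⟨p, hp, hup⟩ := hcon u (mem_range.1 hu) h1 h2
          exact Or.inr (mem_biUnion.2 ⟨p, hp, hup⟩)
        · push Not at h2
          obtain ⟨p, hp, hup⟩ := h2
          exact Or.inl (Or.inr (mem_biUnion.2 ⟨p, hp, hup⟩))
      · push Not at h1
        obtain ⟨p, hp, hup⟩ := h1
        exact Or.inl (Or.inl (mem_biUnion.2 ⟨p, hp, hup⟩))
    have h1 : (U : ℝ) ≤ ∑ p ∈ S, ((B1 p).card : ℝ) + ∑ p ∈ S, ((B2 p).card : ℝ) +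
        ∑ p ∈ R, ((B3 p).card : ℝ) := by
      have h2 := (card_le_card hsub).trans ((card_union_le _ _).trans
        (Nat.add_le_add ((card_union_le _ _).trans (Nat.add_le_add card_biUnion_le
          card_biUnion_le)) card_biUnion_le))
      rw [card_range] at h2
      exact_mod_cast h2
    have h2 : ∀ B : ℕ → Finset ℕ, (∀ p ∈ S, ((B p).card : ℝ) ≤ E) →
        ∑ p ∈ S, ((B p).card : ℝ) ≤ P₀ * E := by
      intro B hB
      calc ∑ p ∈ S, ((B p).card : ℝ) ≤ ∑ _p ∈ S, E := sum_le_sum hB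
        _ = S.card * E := by rw [sum_const, nsmul_eq_mul]
        _ ≤ P₀ * E := by gcongr
    have h3 : ∑ p ∈ R, ((B3 p).card : ℝ) ≤ g * Nat.log 2 (n + g) * (g * (U / P₀ + 1)) := by
      calc ∑ p ∈ R, ((B3 p).card : ℝ) ≤ ∑ _p ∈ R, (g * ((U : ℝ) / P₀ + 1)) := sum_le_sum hB3
        _ = R.card * (g * (U / P₀ + 1)) := by rw [sum_const, nsmul_eq_mul]
        _ ≤ _ := by gcongr
    have h4 := h2 B1 hB1
    have h5 := h2 B2 hB2
    linarith
  obtain ⟨u, hu, hu1, hu2, hu3⟩ := hU2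
  -- the tuple
  have hQu : 1 ≤ Q * (u + 1) := Nat.mul_pos hQ (Nat.succ_pos u)
  have hQv : 1 ≤ Q * (v + 1) := Nat.mul_pos hQ (Nat.succ_pos v)
  have hszuv := hsz u hu v hv
  have hKv : K * (Q * (v + 1) - 1) + K = K * (Q * (v + 1)) := by
    rw [Nat.mul_sub, mul_one]
    exact Nat.sub_add_cancel (Nat.le_mul_of_pos_right K hQv)
  have hexp : Q * ((u + 1) + K * (v + 1)) = Q * (u + 1) + K * (Q * (v + 1)) := by ring
  have hsum : (Q * (u + 1) - 1) + (m - Q * ((u + 1) + K * (v + 1))) + K * (Q * (v + 1) - 1) =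
      n + g := by
    omega
  refine le_g hsum ?_
  intro p hp
  by_cases hpP : p ≤ P₀
  · have hpS : p ∈ S := (hSmem p).2 ⟨hp, hpP⟩
    apply val_small hp hsum
    have hpe : 0 < p ^ e p := pow_pos hp.pos _
    have hsub1 : ∀ w : ℕ, Q * (w + 1) - 1 = (p ^ e p - 1) + p ^ e p * (q p * (w + 1) - 1) := by
      intro w
      have h1 : 1 ≤ q p * (w + 1) := Nat.mul_pos (hq0 p) (Nat.succ_pos w)
      have h2 : p ^ e p * (q p * (w + 1) - 1) + p ^ e p = Q * (w + 1) := by
        rw [Nat.mul_sub, mul_one, Nat.sub_add_cancel (Nat.le_mul_of_pos_right _ h1), ← mul_assoc,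
          hQe]
      omega
    have s1 : ∀ w : ℕ, sp p (Q * (w + 1) - 1) = e p * (p - 1) + sp p (q p * (w + 1) - 1) := by
      intro w
      rw [hsub1 w, sp_split hp.two_le (e p) _ _ (by omega), sp_pow_sub_one hp.two_le]
    have s2 : sp p (m - Q * ((u + 1) + K * (v + 1))) =
        sp p (m % p ^ e p) + sp p (C p - q p * (u + 1)) := by
      have h1 := hCU p hp u hu
      have h2 : m - Q * ((u + 1) + K * (v + 1)) =
          m % p ^ e p + p ^ e p * (C p - q p * (u + 1)) := by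
        have h3 := Nat.mod_add_div m (p ^ e p)
        have h4 : C p - q p * (u + 1) = m / p ^ e p - q p * ((u + 1) + K * (v + 1)) := by
          show m / p ^ e p - q p * (K * (v + 1)) - q p * (u + 1) = _
          have h7 : q p * ((u + 1) + K * (v + 1)) = q p * (K * (v + 1)) + q p * (u + 1) := by
            ring
          rw [h7, Nat.sub_add_eq]
        have h5 : p ^ e p * (q p * ((u + 1) + K * (v + 1))) = Q * ((u + 1) + K * (v + 1)) := by
          rw [← mul_assoc, hQe]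
        rw [h4, Nat.mul_sub, h5]
        have h6 : Q * ((u + 1) + K * (v + 1)) ≤ p ^ e p * (m / p ^ e p) := by
          rw [← h5]
          apply Nat.mul_le_mul_left
          have h7 : q p * ((u + 1) + K * (v + 1)) = q p * (u + 1) + q p * (K * (v + 1)) := by
            ring
          rw [h7]
          exact h1
        omega
      rw [h2, sp_split hp.two_le (e p) _ _ (Nat.mod_lt _ hpe)]
    rw [s1, s1, s2]
    -- real inequality
    have r1 : (1 / 2 - ε) * (p - 1) * ((D p - e p : ℕ) : ℝ) < sp p (q p * (u + 1) - 1) := by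
      have h1 := hu1 p hpS
      have h2 : u ∉ (range U).filter (fun u => (sp p (q p * (u + 1) - 1) : ℝ) ≤
        (1 / 2 - ε) * (p - 1) * ((D p - e p : ℕ) : ℝ)) := h1
      rw [mem_filter, not_and] at h2
      exact not_le.1 (h2 (mem_range.2 hu))
    have r2 : (1 / 2 - ε) * (p - 1) * ((D p - e p : ℕ) : ℝ) < sp p (q p * (v + 1) - 1) := by
      have h1 := hvB p hpS
      have h2 : v ∉ (range U).filter (fun u => (sp p (q p * (u + 1) - 1) : ℝ) ≤
        (1 / 2 - ε) * (p - 1) * ((D p - e p : ℕ) : ℝ)) := h1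
      rw [mem_filter, not_and] at h2
      exact not_le.1 (h2 (mem_range.2 hv))
    have r3 : (1 / 2 - ε) * (p - 1) * ((D p - e p : ℕ) : ℝ) < sp p (C p - q p * (u + 1)) := by
      have h1 := hu2 p hpS
      have h2 : u ∉ (range U).filter (fun u => (sp p (C p - q p * (u + 1)) : ℝ) ≤
        (1 / 2 - ε) * (p - 1) * ((D p - e p : ℕ) : ℝ)) := h1
      rw [mem_filter, not_and] at h2
      exact not_le.1 (h2 (mem_range.2 hu))
    have r4 := hn1 p hp hpP
    have r5 := hn2 p hp hpP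
    have r6 := hgain p hp hpP
    obtain ⟨l, _, _, _, l4⟩ := hl p hp hpP
    have heD : e p ≤ D p := by
      show Q.factorization p ≤ D p
      omega
    have hcast : ((D p - e p : ℕ) : ℝ) = D p - e p := Nat.cast_sub heD
    rw [hcast] at r1 r2 r3
    have hp1 : (1 : ℝ) ≤ p := by exact_mod_cast hp.one_le
    have hcp : ((p - 1 : ℕ) : ℝ) = p - 1 := by
      rw [Nat.cast_sub hp.one_le]
      simp
    have hgoal : (g : ℝ) + sp p n ≤ (e p * (p - 1 : ℕ) + sp p (q p * (u + 1) - 1)) +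
        (sp p (m % p ^ e p) + sp p (C p - q p * (u + 1))) +
        K * (e p * (p - 1 : ℕ) + sp p (q p * (v + 1) - 1)) := by
      rw [hcp]
      have hK : (K : ℝ) * ((1 / 2 - ε) * (p - 1) * (D p - e p)) ≤
          K * sp p (q p * (v + 1) - 1) := by gcongr
      have heD' : (e p : ℝ) ≤ D p := by exact_mod_cast heD
      have he0 : (0 : ℝ) ≤ e p := Nat.cast_nonneg _
      have hK0 : (0 : ℝ) ≤ K := Nat.cast_nonneg K
      have hprod1 : 0 ≤ ε * ((p : ℝ) - 1) * (K * D p) := by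
        have : (0 : ℝ) ≤ (p : ℝ) - 1 := by linarith
        positivity
      have hprod2 : 0 ≤ ε * ((p : ℝ) - 1) * (K * e p) := by
        have : (0 : ℝ) ≤ (p : ℝ) - 1 := by linarith
        positivity
      have hprod3 : 0 ≤ ε * ((p : ℝ) - 1) * e p := by
        have : (0 : ℝ) ≤ (p : ℝ) - 1 := by linarith
        positivity
      have r5' : (1 / 2 - ε) * (p - 1) * (e p : ℝ) ≤ sp p (m % p ^ e p) := r5
      have r6' : (g : ℝ) ≤ (p - 1) * (K + 1) * ((D p + (e p : ℝ)) / 2 - 3 * ε * D p) := r6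
      nlinarith
    have hgoal' : g + sp p n ≤ (e p * (p - 1) + sp p (q p * (u + 1) - 1)) +
        (sp p (m % p ^ e p) + sp p (C p - q p * (u + 1))) +
        K * (e p * (p - 1) + sp p (q p * (v + 1) - 1)) := by
      exact_mod_cast hgoal
    exact hgoal'
  · apply val_large hp hsum
    by_cases h1 : g ≤ (n + g) % p
    · exact Or.inr h1
    · left
      push Not at h1
      by_cases h2 : p ≤ n + g
      · have hpR : p ∈ R := by
          rw [hR, mem_filter, mem_range]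
          exact ⟨by omega, hp, by omega, h1⟩
        have h3 := hu3 p hpR
        have h4 : u ∉ (range U).filter (fun u => (Q * (u + 1) - 1) % p < g) := h3
        rw [mem_filter, not_and] at h4
        exact not_lt.1 (h4 (mem_range.2 hu))
      · rw [Nat.mod_eq_of_lt (by omega)] at h1
        omega

end Pool.Agent.H27.Fact
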