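import Mathlib
import Pool.Agent.H27.Fact.Good

/-! # Choice of the parameters -/

set_option autoImplicit false

open Finset Filter Topology

namespace Pool.Agent.H27.Fact

/-- bound for the small primes -/
def P0x (x : ℕ) : ℕ := Nat.log 2 x ^ 4

/-- number of digits -/
def Dx (x p : ℕ) : ℕ := Nat.log p (2 * x) + 1

/-- exponent of `2` in the modulus -/
def ix (x : ℕ) : ℕ := 39 * Dx x 2 / 100

/-- exponent of `3` in the modulus -/
def jx (x : ℕ) : ℕ := 101 * Dx x 3 / 1000

/-- the modulus -/
def Qx (x : ℕ) : ℕ := 2 ^ ix x * 3 ^ jx x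

/-- number of terms of the progression -/
def Ux (c x : ℕ) : ℕ := x / (c * Qx x)

/-- lower bound for the number of digits in a block -/
def Mx (x : ℕ) : ℕ := Nat.sqrt (Nat.log 2 x)

/-- the excess divided by `k - 1` -/
noncomputable def Gx (x : ℕ) : ℕ := ⌈1.001 * Real.log x⌉₊

theorem Qx_pos (x : ℕ) : 0 < Qx x := by
  unfold Qx
  positivity

theorem fact_two (x : ℕ) : (Qx x).factorization 2 = ix x := by
  unfold Qx
  rw [Nat.factorization_mul (by positivity) (by positivity), Nat.factorization_pow,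
    Nat.factorization_pow]
  simp [Nat.Prime.factorization Nat.prime_two, Nat.Prime.factorization Nat.prime_three]

theorem fact_three (x : ℕ) : (Qx x).factorization 3 = jx x := by
  unfold Qx
  rw [Nat.factorization_mul (by positivity) (by positivity), Nat.factorization_pow,
    Nat.factorization_pow]
  simp [Nat.Prime.factorization Nat.prime_two, Nat.Prime.factorization Nat.prime_three]

theorem fact_other (x : ℕ) {p : ℕ} (h2 : p ≠ 2) (h3 : p ≠ 3) : (Qx x).factorization p = 0 := by
  unfold Qx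
  rw [Nat.factorization_mul (by positivity) (by positivity), Nat.factorization_pow,
    Nat.factorization_pow]
  simp [Nat.Prime.factorization Nat.prime_two, Nat.Prime.factorization Nat.prime_three,
    h2.symm, h3.symm]

theorem prime_dvd_Qx {x p : ℕ} (hp : p.Prime) (h : p ∣ Qx x) : p = 2 ∨ p = 3 := by
  unfold Qx at h
  rcases (Nat.Prime.dvd_mul hp).1 h with h1 | h1
  · left
    exact (Nat.prime_dvd_prime_iff_eq hp Nat.prime_two).1 (hp.dvd_of_dvd_pow h1)
  · right
    exact (Nat.prime_dvd_prime_iff_eq hp Nat.prime_three).1 (hp.dvd_of_dvd_pow h1)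

theorem lt_pow_Dx {x p : ℕ} (hp : 2 ≤ p) : 2 * x < p ^ Dx x p :=
  Nat.lt_pow_succ_log_self (by omega) _

theorem pow_Dx_le {x p : ℕ} (hx : 0 < x) : p ^ Dx x p ≤ p * (2 * x) := by
  unfold Dx
  rw [pow_succ']
  exact Nat.mul_le_mul_left p (Nat.pow_log_le_self p (by omega))

/-- real form of the digit count -/
theorem Dx_log {x p : ℕ} (hp : 2 ≤ p) (hx : 0 < x) :
    Real.log x + Real.log 2 ≤ Dx x p * Real.log p ∧
      Dx x p * Real.log p ≤ Real.log x + Real.log 2 + Real.log p := by
  have hx' : (0 : ℝ) < x := by exact_mod_cast hx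
  have hp' : (0 : ℝ) < p := by exact_mod_cast (by omega : 0 < p)
  have e : Real.log x + Real.log 2 = Real.log ((2 : ℝ) * x) := by
    rw [Real.log_mul (by norm_num) hx'.ne']
    ring
  rw [e]
  constructor
  · rw [← Real.log_pow]
    apply Real.log_le_log (by positivity)
    exact_mod_cast (lt_pow_Dx hp).le
  · rw [← Real.log_pow, ← Real.log_mul (by positivity) hp'.ne']
    apply Real.log_le_log (by positivity)
    rw [mul_comm]
    exact_mod_cast pow_Dx_le hx

theorem ix_bounds (x : ℕ) : (39 / 100 : ℝ) * Dx x 2 - 1 ≤ ix x ∧ (ix x : ℝ) ≤ 39 / 100 * Dx x 2 := by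
  unfold ix
  have h1 := Nat.div_add_mod (39 * Dx x 2) 100
  have h2 := Nat.mod_lt (39 * Dx x 2) (by norm_num : 0 < 100)
  have h3 : (100 : ℝ) * ((39 * Dx x 2 / 100 : ℕ) : ℝ) + ((39 * Dx x 2 % 100 : ℕ) : ℝ) =
      39 * Dx x 2 := by exact_mod_cast h1
  have h4 : ((39 * Dx x 2 % 100 : ℕ) : ℝ) < 100 := by exact_mod_cast h2
  have h5 : (0 : ℝ) ≤ ((39 * Dx x 2 % 100 : ℕ) : ℝ) := Nat.cast_nonneg _
  constructor <;> linarith

theorem jx_bounds (x : ℕ) :
    (101 / 1000 : ℝ) * Dx x 3 - 1 ≤ jx x ∧ (jx x : ℝ) ≤ 101 / 1000 * Dx x 3 := by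
  unfold jx
  have h1 := Nat.div_add_mod (101 * Dx x 3) 1000
  have h2 := Nat.mod_lt (101 * Dx x 3) (by norm_num : 0 < 1000)
  have h3 : (1000 : ℝ) * ((101 * Dx x 3 / 1000 : ℕ) : ℝ) + ((101 * Dx x 3 % 1000 : ℕ) : ℝ) =
      101 * Dx x 3 := by exact_mod_cast h1
  have h4 : ((101 * Dx x 3 % 1000 : ℕ) : ℝ) < 1000 := by exact_mod_cast h2
  have h5 : (0 : ℝ) ≤ ((101 * Dx x 3 % 1000 : ℕ) : ℝ) := Nat.cast_nonneg _
  constructor <;> linarith

theorem log_three_lt : Real.log 3 ≤ 1.0989 := by
  have h1 : Real.log ((3 : ℝ) ^ 41) ≤ Real.log ((2 : ℝ) ^ 65) :=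
    Real.log_le_log (by positivity) (by norm_num)
  rw [Real.log_pow, Real.log_pow] at h1
  have h2 := Real.log_two_lt_d9
  push_cast at h1
  linarith

theorem log_three_gt : 1 < Real.log 3 := by
  rw [Real.lt_log_iff_exp_lt (by norm_num)]
  have := Real.exp_one_lt_d9
  linarith

/-- upper bound for the modulus -/
theorem log_Qx_le {x : ℕ} (hx : 0 < x) : Real.log (Qx x) ≤ 491 / 1000 * Real.log x + 1 := by
  have h1 := (Dx_log (p := 2) le_rfl hx).2
  have h2 := (Dx_log (p := 3) (by norm_num) hx).2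
  have h3 := (ix_bounds x).2
  have h4 := (jx_bounds x).2
  have l2 : 0 < Real.log 2 := Real.log_pos (by norm_num)
  have l3 : 0 < Real.log 3 := Real.log_pos (by norm_num)
  have e : Real.log (Qx x) = ix x * Real.log 2 + jx x * Real.log 3 := by
    unfold Qx
    push_cast
    rw [Real.log_mul (by positivity) (by positivity), Real.log_pow, Real.log_pow]
  rw [e]
  have h5 : (ix x : ℝ) * Real.log 2 ≤ 39 / 100 * (Dx x 2 * Real.log 2) := by
    calc (ix x : ℝ) * Real.log 2 ≤ (39 / 100 * Dx x 2) * Real.log 2 := by gcongr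
      _ = _ := by ring
  have h6 : (jx x : ℝ) * Real.log 3 ≤ 101 / 1000 * (Dx x 3 * Real.log 3) := by
    calc (jx x : ℝ) * Real.log 3 ≤ (101 / 1000 * Dx x 3) * Real.log 3 := by gcongr
      _ = _ := by ring
  push_cast at h1 h2
  have h7 := Real.log_two_lt_d9
  have h8 := log_three_lt
  linarith

theorem log_ix {x : ℕ} (hx : 0 < x) : 39 / 100 * Real.log x - 1 ≤ ix x * Real.log 2 := by
  have h1 := (Dx_log (p := 2) le_rfl hx).1
  have h3 := (ix_bounds x).1
  have l2 : 0 < Real.log 2 := Real.log_pos (by norm_num)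
  have h5 : (39 / 100 * Dx x 2 - 1) * Real.log 2 ≤ (ix x : ℝ) * Real.log 2 := by gcongr
  push_cast at h1
  have h7 := Real.log_two_lt_d9
  have h8 : (39 / 100 * Dx x 2 - 1) * Real.log 2 = 39 / 100 * (Dx x 2 * Real.log 2) - Real.log 2 := by
    ring
  rw [h8] at h5
  linarith

theorem log_jx {x : ℕ} (hx : 0 < x) : 101 / 1000 * Real.log x - 2 ≤ jx x * Real.log 3 := by
  have h1 := (Dx_log (p := 3) (by norm_num) hx).1
  have h3 := (jx_bounds x).1
  have l3 : 0 < Real.log 3 := Real.log_pos (by norm_num)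
  have l2 : 0 < Real.log 2 := Real.log_pos (by norm_num)
  have h5 : (101 / 1000 * Dx x 3 - 1) * Real.log 3 ≤ (jx x : ℝ) * Real.log 3 := by gcongr
  push_cast at h1
  have h7 := log_three_lt
  have h8 : (101 / 1000 * Dx x 3 - 1) * Real.log 3 =
      101 / 1000 * (Dx x 3 * Real.log 3) - Real.log 3 := by ring
  rw [h8] at h5
  linarith

/-- the gain -/
theorem gain {x K p : ℕ} (hp : p.Prime) (hx : 0 < x) (hL : 10000 ≤ Real.log x) :
    (((K + 1) * Gx x : ℕ) : ℝ) ≤ (p - 1) * (K + 1) *
      ((Dx x p + (Qx x).factorization p) / 2 - 3 * (1 / 10000) * Dx x p) := by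
  have hG : (Gx x : ℝ) ≤ 1.001 * Real.log x + 1 := by
    unfold Gx
    exact (Nat.ceil_lt_add_one (by positivity)).le
  have key : (Gx x : ℝ) ≤ (p - 1) *
      ((Dx x p + (Qx x).factorization p) / 2 - 3 * (1 / 10000) * Dx x p) := by
    refine hG.trans ?_
    have h1 := (Dx_log (p := p) hp.two_le hx).1
    have l2 : 0 < Real.log 2 := Real.log_pos (by norm_num)
    by_cases h2 : p = 2
    · subst h2
      rw [fact_two]
      have h3 := (ix_bounds x).1
      have h7 := Real.log_two_lt_d9
      push_cast at h1 ⊢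
      -- `D ≥ L / log 2`
      have h8 : Real.log x ≤ Dx x 2 * 0.69314719 := by
        have : (0 : ℝ) ≤ Dx x 2 := Nat.cast_nonneg _
        nlinarith
      linarith
    · by_cases h3 : p = 3
      · subst h3
        rw [fact_three]
        have h3 := (jx_bounds x).1
        have h7 := log_three_lt
        push_cast at h1 ⊢
        have h8 : Real.log x ≤ Dx x 3 * 1.0989 := by
          have : (0 : ℝ) ≤ Dx x 3 := Nat.cast_nonneg _
          nlinarith
        linarith
      · have hp5 : 5 ≤ p := by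
          have := hp.two_le
          by_contra hcon
          have h4 : p = 4 := by omega
          subst h4
          exact absurd hp (by norm_num)
        rw [fact_other x h2 h3]
        have hp5' : (5 : ℝ) ≤ p := by exact_mod_cast hp5
        have h9 : Real.log p ≤ 45 / 100 * (p - 1) := by
          have h10 : Real.log p = Real.log 5 + Real.log (p / 5) := by
            rw [← Real.log_mul (by norm_num) (by positivity)]
            congr 1
            field_simp
          have h11 : Real.log ((p : ℝ) / 5) ≤ p / 5 - 1 := Real.log_le_sub_one_of_pos (by positivity)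
          have h12 : Real.log 5 ≤ 1.62 := by
            have h13 : Real.log ((5 : ℝ) ^ 3) ≤ Real.log ((2 : ℝ) ^ 7) :=
              Real.log_le_log (by positivity) (by norm_num)
            rw [Real.log_pow, Real.log_pow] at h13
            have h2 := Real.log_two_lt_d9
            push_cast at h13
            linarith
          rw [h10]
          linarith
        have h14 : Real.log x ≤ Dx x p * (45 / 100 * (p - 1)) := by
          have : (0 : ℝ) ≤ Dx x p := Nat.cast_nonneg _
          nlinarith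
        push_cast
        have h15 : ((p : ℝ) - 1) * (((Dx x p : ℝ) + 0) / 2 - 3 * (1 / 10000) * Dx x p) =
            (Dx x p * (45 / 100 * ((p : ℝ) - 1))) * (0.4997 / 0.45) := by ring
        rw [h15]
        nlinarith
  push_cast
  have hK : (0 : ℝ) ≤ K + 1 := by positivity
  calc ((K : ℝ) + 1) * Gx x ≤ (K + 1) * ((p - 1) *
      ((Dx x p + (Qx x).factorization p) / 2 - 3 * (1 / 10000) * Dx x p)) := by gcongr
    _ = _ := by ring

end Pool.Agent.H27.Fact
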