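import Mathlib
import Pool.Agent.H27.Fact.Param

/-! # All integers outside a small exceptional set -/

set_option autoImplicit false

open Finset Filter Topology

namespace Pool.Agent.H27.Fact

/-- the analytic conditions on the scale `x` -/
structure Cond (K h x : ℕ) : Prop where
  a : Real.log (2 * (h * (K + 1))) + Real.log (P0x x) + 2 * Real.log (Qx x) ≤ Real.log x
  b1 : Mx x * Real.log (P0x x) ≤ ix x * Real.log 2
  b2 : Mx x * Real.log (P0x x) ≤ jx x * Real.log 3
  c : 80 * (h * (K + 1)) * (P0x x : ℝ) ^ 2 * Real.exp (-(2 * (1 / 10000) ^ 2 * Mx x)) ≤ 1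
  d : 8 * ((K + 1) * Gx x) ^ 2 * (Nat.log 2 x + 1) ≤ P0x x
  e : (K + 1) * Gx x + K + 1 ≤ x
  f : 10000 ≤ Real.log x
  y : 2 ≤ Nat.log 2 x

theorem Cond.hx {K h x : ℕ} (H : Cond K h x) : 0 < x := by
  rcases Nat.eq_zero_or_pos x with h0 | h0
  · have := H.f
    rw [h0] at this
    simp at this
    linarith
  · exact h0

theorem Cond.P0 {K h x : ℕ} (H : Cond K h x) : 16 ≤ P0x x := by
  unfold P0x
  calc 16 = 2 ^ 4 := by norm_num
    _ ≤ Nat.log 2 x ^ 4 := Nat.pow_le_pow_left H.y 4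

/-- `2 c P₀ Q² ≤ x` -/
theorem Cond.size {K h x : ℕ} (hh : 0 < h) (H : Cond K h x) :
    2 * (h * (K + 1)) * P0x x * Qx x ^ 2 ≤ x := by
  have hx := H.hx
  have hP := H.P0
  have hQ := Qx_pos x
  have hx' : (0 : ℝ) < x := by exact_mod_cast hx
  have hP' : (0 : ℝ) < P0x x := by exact_mod_cast (by omega : 0 < P0x x)
  have hQ' : (0 : ℝ) < Qx x := by exact_mod_cast hQ
  have hh' : (0 : ℝ) < h := by exact_mod_cast hh
  have h1 : Real.log (2 * (h * (K + 1)) * P0x x * Qx x ^ 2) ≤ Real.log x := by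
    rw [Real.log_mul (by positivity) (by positivity), Real.log_mul (by positivity) (by positivity),
      Real.log_pow]
    push_cast
    exact H.a
  have h2 := (Real.log_le_log_iff (by positivity) hx').1 h1
  exact_mod_cast h2

theorem Cond.U {K h x : ℕ} (hh : 0 < h) (H : Cond K h x) :
    Qx x * P0x x ≤ Ux (h * (K + 1)) x := by
  unfold Ux
  have hc : 0 < h * (K + 1) * Qx x := Nat.mul_pos (Nat.mul_pos hh (Nat.succ_pos K)) (Qx_pos x)
  rw [Nat.le_div_iff_mul_le hc]
  have h1 := H.size hh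
  calc Qx x * P0x x * (h * (K + 1) * Qx x) = (h * (K + 1)) * P0x x * Qx x ^ 2 := by ring
    _ ≤ 2 * (h * (K + 1)) * P0x x * Qx x ^ 2 := by
        have : (h * (K + 1)) * P0x x * Qx x ^ 2 ≤ 2 * ((h * (K + 1)) * P0x x * Qx x ^ 2) := by
          omega
        calc _ ≤ 2 * ((h * (K + 1)) * P0x x * Qx x ^ 2) := this
          _ = _ := by ring
    _ ≤ x := h1

theorem Cond.pow_le {K h x p : ℕ} (hpP : p ≤ P0x x) (H : Cond K h x) :
    p ^ Mx x ≤ 2 ^ ix x ∧ p ^ Mx x ≤ 3 ^ jx x := by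
  have hP := H.P0
  have hP' : (0 : ℝ) < P0x x := by exact_mod_cast (by omega : 0 < P0x x)
  have h0 : p ^ Mx x ≤ P0x x ^ Mx x := Nat.pow_le_pow_left hpP _
  constructor
  · refine h0.trans ?_
    have h1 : Real.log ((P0x x : ℝ) ^ Mx x) ≤ Real.log ((2 : ℝ) ^ ix x) := by
      rw [Real.log_pow, Real.log_pow]
      exact H.b1
    have h2 := (Real.log_le_log_iff (by positivity) (by positivity)).1 h1
    exact_mod_cast h2
  · refine h0.trans ?_
    have h1 : Real.log ((P0x x : ℝ) ^ Mx x) ≤ Real.log ((3 : ℝ) ^ jx x) := by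
      rw [Real.log_pow, Real.log_pow]
      exact H.b2
    have h2 := (Real.log_le_log_iff (by positivity) (by positivity)).1 h1
    exact_mod_cast h2

/-- the cofactor of the `p`-part of `Q` is large -/
theorem Cond.pow_le_cof {K h x p : ℕ} (hp : p.Prime) (hpP : p ≤ P0x x) (H : Cond K h x) :
    p ^ Mx x ≤ Qx x / p ^ (Qx x).factorization p := by
  obtain ⟨h1, h2⟩ := H.pow_le hpP
  have e2 : 0 < 2 ^ ix x := by positivity
  have e3 : 0 < 3 ^ jx x := by positivity
  by_cases hp2 : p = 2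
  · subst hp2
    rw [fact_two]
    have : Qx x / 2 ^ ix x = 3 ^ jx x := by
      unfold Qx
      exact Nat.mul_div_cancel_left _ e2
    rw [this]
    exact h2
  · by_cases hp3 : p = 3
    · subst hp3
      rw [fact_three]
      have : Qx x / 3 ^ jx x = 2 ^ ix x := by
        unfold Qx
        exact Nat.mul_div_cancel _ e3
      rw [this]
      exact h1
    · rw [fact_other x hp2 hp3, pow_zero, Nat.div_one]
      unfold Qx
      exact h1.trans (Nat.le_mul_of_pos_right _ e3)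

theorem Cond.exists_l {K h x p : ℕ} (hh : 0 < h) (hp : p.Prime) (hpP : p ≤ P0x x)
    (H : Cond K h x) :
    ∃ l, Qx x / p ^ (Qx x).factorization p ≤ p ^ l ∧ p ^ l ≤ Ux (h * (K + 1)) x ∧
      Mx x ≤ l ∧ l + Mx x + (Qx x).factorization p ≤ Dx x p := by
  have hU := H.U hh
  have hQ := Qx_pos x
  have hP := H.P0
  have hUpos : 0 < Ux (h * (K + 1)) x :=
    lt_of_lt_of_le (Nat.mul_pos hQ (by omega)) hU
  have hcof := H.pow_le_cof hp hpP
  have hcofQ : Qx x / p ^ (Qx x).factorization p ≤ Qx x := Nat.div_le_self _ _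
  refine ⟨Nat.log p (Ux (h * (K + 1)) x), ?_, Nat.pow_log_le_self p hUpos.ne', ?_, ?_⟩
  · refine hcofQ.trans ?_
    have h1 : Ux (h * (K + 1)) x < p ^ (Nat.log p (Ux (h * (K + 1)) x) + 1) :=
      Nat.lt_pow_succ_log_self hp.one_lt _
    have h2 : Qx x * P0x x < P0x x * p ^ Nat.log p (Ux (h * (K + 1)) x) := by
      calc Qx x * P0x x ≤ Ux (h * (K + 1)) x := hU
        _ < p ^ (Nat.log p (Ux (h * (K + 1)) x) + 1) := h1
        _ = p * p ^ Nat.log p (Ux (h * (K + 1)) x) := by rw [pow_succ']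
        _ ≤ P0x x * p ^ Nat.log p (Ux (h * (K + 1)) x) := Nat.mul_le_mul_right _ hpP
    rw [mul_comm] at h2
    exact (Nat.lt_of_mul_lt_mul_left h2).le
  · apply Nat.le_log_of_pow_le hp.one_lt
    refine hcof.trans (hcofQ.trans (le_trans ?_ hU))
    exact Nat.le_mul_of_pos_right _ (by omega)
  · have h1 : p ^ (Nat.log p (Ux (h * (K + 1)) x) + Mx x + (Qx x).factorization p) <
        p ^ Dx x p := by
      have h2 : p ^ Nat.log p (Ux (h * (K + 1)) x) ≤ Ux (h * (K + 1)) x :=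
        Nat.pow_log_le_self p hUpos.ne'
      have h3 : p ^ (Qx x).factorization p * (Qx x / p ^ (Qx x).factorization p) = Qx x :=
        Nat.ordProj_mul_ordCompl_eq_self _ _
      have h4 : Ux (h * (K + 1)) x * (h * (K + 1) * Qx x) ≤ x := Nat.div_mul_le_self _ _
      calc p ^ (Nat.log p (Ux (h * (K + 1)) x) + Mx x + (Qx x).factorization p)
          = p ^ Nat.log p (Ux (h * (K + 1)) x) * p ^ Mx x * p ^ (Qx x).factorization p := by
            rw [pow_add, pow_add]
        _ ≤ Ux (h * (K + 1)) x * (Qx x / p ^ (Qx x).factorization p) *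
            p ^ (Qx x).factorization p := by gcongr
        _ = Ux (h * (K + 1)) x * Qx x := by
            rw [mul_assoc, mul_comm (Qx x / p ^ (Qx x).factorization p), h3]
        _ ≤ Ux (h * (K + 1)) x * (h * (K + 1) * Qx x) := by
            apply Nat.mul_le_mul_left
            exact Nat.le_mul_of_pos_left _ (Nat.mul_pos hh (Nat.succ_pos K))
        _ ≤ x := h4
        _ ≤ 2 * x := by omega
        _ < p ^ Dx x p := lt_pow_Dx hp.two_le
    exact ((Nat.pow_lt_pow_iff_right hp.one_lt).1 h1).le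

theorem scale_good {K h x n : ℕ} (hh : 0 < h) (H : Cond K h x) (hn : n ≤ x) (hn' : x ≤ h * n)
    (hn1 : ∀ p : ℕ, p.Prime → p ≤ P0x x →
      (sp p n : ℝ) ≤ (1 / 2 + 1 / 10000) * (p - 1) * Dx x p)
    (hn2 : ∀ p : ℕ, p.Prime → p ≤ P0x x → (1 / 2 - 1 / 10000 : ℝ) * (p - 1) *
      ((Qx x).factorization p) ≤
      sp p ((n + (K + 1) * Gx x + K + 1) % p ^ ((Qx x).factorization p))) :
    (K + 1) * Gx x ≤ Nfa7bfd82.g (K + 2) n := by
  have hx := H.hx
  have hP := H.P0
  have hQ := Qx_pos x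
  have hU := H.U hh
  have hUP : P0x x ≤ Ux (h * (K + 1)) x :=
    le_trans (Nat.le_mul_of_pos_left _ hQ) hU
  have hUpos : 0 < Ux (h * (K + 1)) x := by omega
  have hx' : (0 : ℝ) < x := by exact_mod_cast hx
  have hP' : (16 : ℝ) ≤ P0x x := by exact_mod_cast hP
  have hQ' : (0 : ℝ) < Qx x := by exact_mod_cast hQ
  have hh' : (1 : ℝ) ≤ h := by exact_mod_cast hh
  have hU' : (0 : ℝ) < Ux (h * (K + 1)) x := by exact_mod_cast hUpos
  have he := H.e
  refine exists_good (K := K) (n := n) (g := (K + 1) * Gx x) (Q := Qx x)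
    (U := Ux (h * (K + 1)) x) (P₀ := P0x x) (M := Mx x) (ε := 1 / 10000)
    (T := 2 * x * P0x x) (D := Dx x) hQ (by norm_num) (by positivity) (by omega) ?_ ?_ ?_ ?_
    hn1 hn2 ?_ ?_ ?_
  · intro p hp hpQ
    rcases prime_dvd_Qx hp hpQ with h1 | h1 <;> omega
  · intro p hp _
    have h1 := lt_pow_Dx (x := x) hp.two_le
    omega
  · intro p hp hpP
    have h1 : p ^ Dx x p ≤ P0x x * (2 * x) :=
      (pow_Dx_le hx).trans (Nat.mul_le_mul_right _ hpP)
    have h2 : (p : ℝ) ^ Dx x p ≤ P0x x * (2 * x) := by exact_mod_cast h1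
    linarith
  · have h4 : x / (h * (K + 1) * Qx x) * (h * (K + 1) * Qx x) ≤ x := Nat.div_mul_le_self _ _
    have h5 : h * (Qx x * ((K + 1) * Ux (h * (K + 1)) x)) ≤ h * n := by
      refine le_trans ?_ hn'
      refine le_trans (le_of_eq ?_) h4
      unfold Ux
      ring
    exact Nat.le_of_mul_le_mul_left h5 hh
  · intro p hp hpP
    exact H.exists_l hh hp hpP
  · intro p hp _
    exact gain hp hx H.f
  · -- counting
    set c : ℝ := (h : ℝ) * (K + 1) with hc
    have hc1 : 1 ≤ c := by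
      rw [hc]
      have : (1 : ℝ) ≤ K + 1 := by
        have := Nat.cast_nonneg (α := ℝ) K
        linarith
      nlinarith
    set E := Real.exp (-(2 * (1 / 10000 : ℝ) ^ 2 * Mx x)) with hE
    have hE0 : 0 < E := Real.exp_pos _
    have h6 : (x : ℝ) ≤ 2 * Ux (h * (K + 1)) x * (c * Qx x) := by
      have h7 : x < (Ux (h * (K + 1)) x + 1) * (h * (K + 1) * Qx x) := by
        unfold Ux
        have hpos : 0 < h * (K + 1) * Qx x :=
          Nat.mul_pos (Nat.mul_pos hh (Nat.succ_pos K)) hQ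
        have := Nat.lt_div_mul_add (a := x) hpos
        rw [Nat.add_mul, one_mul]
        exact this
      have h8 : (x : ℝ) < (Ux (h * (K + 1)) x + 1) * (c * Qx x) := by
        rw [hc]
        exact_mod_cast h7
      have h9 : (1 : ℝ) ≤ Ux (h * (K + 1)) x := by exact_mod_cast hUpos
      have h10 : (0 : ℝ) < c * Qx x := by positivity
      nlinarith
    have h11 : 2 * (2 * (x : ℝ) * P0x x) / Qx x ≤ 8 * c * P0x x * Ux (h * (K + 1)) x := by
      rw [div_le_iff₀ hQ']
      have : 0 ≤ (P0x x : ℝ) := by positivity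
      nlinarith
    have h12 : 2 * (P0x x : ℝ) * ((2 * Ux (h * (K + 1)) x + 2 * (2 * x * P0x x) / Qx x) * E) ≤
        Ux (h * (K + 1)) x / 4 := by
      have h13 : 2 * (Ux (h * (K + 1)) x : ℝ) + 2 * (2 * x * P0x x) / Qx x ≤
          10 * c * P0x x * Ux (h * (K + 1)) x := by
        have h14 : (1 : ℝ) ≤ c * P0x x := by nlinarith
        nlinarith
      calc 2 * (P0x x : ℝ) * ((2 * Ux (h * (K + 1)) x + 2 * (2 * x * P0x x) / Qx x) * E)
          ≤ 2 * (P0x x : ℝ) * ((10 * c * P0x x * Ux (h * (K + 1)) x) * E) := by gcongr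
        _ = (80 * c * (P0x x : ℝ) ^ 2 * E) * (Ux (h * (K + 1)) x / 4) := by ring
        _ ≤ 1 * (Ux (h * (K + 1)) x / 4) := by
            have := H.c
            gcongr
        _ = _ := one_mul _
    have h15 : ((((K + 1) * Gx x : ℕ) : ℝ) * Nat.log 2 (n + (K + 1) * Gx x) *
        (((K + 1) * Gx x : ℕ) * ((Ux (h * (K + 1)) x : ℝ) / P0x x + 1))) ≤
        Ux (h * (K + 1)) x / 4 := by
      have h16 : Nat.log 2 (n + (K + 1) * Gx x) ≤ Nat.log 2 x + 1 := by
        have h17 : Nat.log 2 (n + (K + 1) * Gx x) ≤ Nat.log 2 (x * 2) :=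
          Nat.log_mono_right (by omega)
        rw [Nat.log_mul_base (by norm_num) hx.ne'] at h17
        exact h17
      have h18 : (8 : ℝ) * (((K + 1) * Gx x : ℕ) : ℝ) ^ 2 * ((Nat.log 2 x : ℝ) + 1) ≤ P0x x := by
        exact_mod_cast H.d
      have h19 : (P0x x : ℝ) ≤ Ux (h * (K + 1)) x := by exact_mod_cast hUP
      have h20 : ((Nat.log 2 (n + (K + 1) * Gx x) : ℕ) : ℝ) ≤ (Nat.log 2 x : ℝ) + 1 := by
        exact_mod_cast h16
      have hg0 : (0 : ℝ) ≤ (((K + 1) * Gx x : ℕ) : ℝ) := Nat.cast_nonneg _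
      have hP0 : (0 : ℝ) < P0x x := by linarith
      calc ((((K + 1) * Gx x : ℕ) : ℝ) * Nat.log 2 (n + (K + 1) * Gx x) *
            (((K + 1) * Gx x : ℕ) * ((Ux (h * (K + 1)) x : ℝ) / P0x x + 1)))
          ≤ ((((K + 1) * Gx x : ℕ) : ℝ) * ((Nat.log 2 x : ℝ) + 1) *
            (((K + 1) * Gx x : ℕ) * ((Ux (h * (K + 1)) x : ℝ) / P0x x + 1))) := by gcongr
        _ = ((8 : ℝ) * (((K + 1) * Gx x : ℕ) : ℝ) ^ 2 * ((Nat.log 2 x : ℝ) + 1)) *
            (((Ux (h * (K + 1)) x : ℝ) / P0x x + 1) / 8) := by ring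
        _ ≤ P0x x * (((Ux (h * (K + 1)) x : ℝ) / P0x x + 1) / 8) := by gcongr
        _ = (Ux (h * (K + 1)) x + P0x x) / 8 := by
            field_simp
        _ ≤ (Ux (h * (K + 1)) x + Ux (h * (K + 1)) x) / 8 := by gcongr
        _ = _ := by ring
    linarith

end Pool.Agent.H27.Fact
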