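import Mathlib
import Pool.Agent.H27.Fact.Scale

/-! # The exceptional set and the asymptotic conditions -/

set_option autoImplicit false

open Finset Filter Topology

namespace Pool.Agent.H27.Fact

theorem card_shift {p e x C : ℕ} (hp : 2 ≤ p) {ε : ℝ} (hε : 0 ≤ ε) (hex : p ^ e ≤ x) :
    (((range (x + 1)).filter (fun n => (sp p ((n + C) % p ^ e) : ℝ) ≤
      (1 / 2 - ε) * (p - 1) * e)).card : ℝ) ≤ 3 * x * Real.exp (-(2 * ε ^ 2 * e)) := by
  have hpe : 0 < p ^ e := by positivity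
  set LA := (range (p ^ e)).filter (fun y => (sp p y : ℝ) ≤ (1 / 2 - ε) * (p - 1) * e) with hLA
  have h : ((range (x + 1)).filter (fun n => (sp p ((n + C) % p ^ e) : ℝ) ≤
      (1 / 2 - ε) * (p - 1) * e)).card ≤ (LA ×ˢ range (x / p ^ e + 1)).card := by
    apply card_le_card_of_injOn (fun n => ((n + C) % p ^ e, n / p ^ e))
    · intro n hn
      have hn' : n ∈ (range (x + 1)).filter (fun n => (sp p ((n + C) % p ^ e) : ℝ) ≤
        (1 / 2 - ε) * (p - 1) * e) := hn
      rw [mem_filter, mem_range] at hn'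
      have hmem : ((n + C) % p ^ e, n / p ^ e) ∈ LA ×ˢ range (x / p ^ e + 1) := by
        rw [mem_product, hLA, mem_filter, mem_range, mem_range]
        refine ⟨⟨Nat.mod_lt _ hpe, hn'.2⟩, ?_⟩
        have := Nat.div_le_div_right (c := p ^ e) (by omega : n ≤ x)
        show n / p ^ e < x / p ^ e + 1
        omega
      exact hmem
    · intro n _ n' _ he
      simp only [Prod.mk.injEq] at he
      have h1 : n + C ≡ n' + C [MOD p ^ e] := he.1
      have h2 : n % p ^ e = n' % p ^ e := Nat.ModEq.add_right_cancel' C h1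
      rw [← Nat.mod_add_div n (p ^ e), ← Nat.mod_add_div n' (p ^ e), h2, he.2]
  rw [card_product, card_range] at h
  have h6 : ((((range (x + 1)).filter (fun n => (sp p ((n + C) % p ^ e) : ℝ) ≤
      (1 / 2 - ε) * (p - 1) * e)).card : ℕ) : ℝ) ≤ LA.card * ((x / p ^ e : ℕ) + 1) := by
    exact_mod_cast h
  have h7 := card_low hp (ε := ε) e hε
  have h8 : ((x / p ^ e : ℕ) : ℝ) ≤ x / p ^ e := by
    have := @Nat.cast_div_le ℝ _ _ _ x (p ^ e)
    push_cast at this
    exact this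
  have h9 : (p : ℝ) ^ e ≤ x := by exact_mod_cast hex
  have hpe' : (0 : ℝ) < (p : ℝ) ^ e := by exact_mod_cast hpe
  refine h6.trans ?_
  calc (LA.card : ℝ) * ((x / p ^ e : ℕ) + 1)
      ≤ (p ^ e * Real.exp (-(2 * ε ^ 2 * e))) * (x / p ^ e + 1) := by gcongr
    _ = (x + p ^ e) * Real.exp (-(2 * ε ^ 2 * e)) := by field_simp
    _ ≤ (x + x) * Real.exp (-(2 * ε ^ 2 * e)) := by gcongr
    _ ≤ _ := by
        have : (0 : ℝ) ≤ x * Real.exp (-(2 * ε ^ 2 * e)) := by positivity
        nlinarith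

theorem exceptional {K h x : ℕ} (hh : 0 < h) (H : Cond K h x) :
    (((Icc 1 x).filter (fun n => x ≤ h * n ∧
      Nfa7bfd82.g (K + 2) n < (K + 1) * Gx x)).card : ℝ) ≤
      8 * (P0x x : ℝ) ^ 2 * Real.exp (-(2 * (1 / 10000 : ℝ) ^ 2 * Mx x)) * x := by
  have hx := H.hx
  have hP := H.P0
  have hQ := Qx_pos x
  set E := Real.exp (-(2 * (1 / 10000 : ℝ) ^ 2 * Mx x)) with hE
  have hE0 : 0 < E := Real.exp_pos _
  set S := (range (P0x x + 1)).filter Nat.Prime with hS
  have hScard : (S.card : ℝ) ≤ P0x x := by exact_mod_cast card_small_le (P0x x)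
  have hSmem : ∀ p, p ∈ S ↔ p.Prime ∧ p ≤ P0x x := by
    intro p
    rw [hS, mem_filter, mem_range]
    constructor
    · rintro ⟨h1, h2⟩
      exact ⟨h2, by omega⟩
    · rintro ⟨h1, h2⟩
      exact ⟨by omega, h1⟩
  let E1 : ℕ → Finset ℕ := fun p => (range (p ^ Dx x p)).filter
    (fun n => (1 / 2 + 1 / 10000 : ℝ) * (p - 1) * Dx x p ≤ (sp p n : ℝ))
  let E2 : ℕ → Finset ℕ := fun p => (range (x + 1)).filter
    (fun n => (sp p ((n + ((K + 1) * Gx x + K + 1)) % p ^ (Qx x).factorization p) : ℝ) ≤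
      (1 / 2 - 1 / 10000 : ℝ) * (p - 1) * ((Qx x).factorization p))
  have hQx : Qx x ≤ x := by
    have h1 := H.size hh
    have h2 : Qx x * 1 ≤ Qx x * (Qx x * (2 * (h * (K + 1)) * P0x x)) := by
      apply Nat.mul_le_mul_left
      exact Nat.mul_pos hQ (Nat.mul_pos (Nat.mul_pos (by norm_num)
        (Nat.mul_pos hh (Nat.succ_pos K))) (by omega))
    calc Qx x = Qx x * 1 := (mul_one _).symm
      _ ≤ Qx x * (Qx x * (2 * (h * (K + 1)) * P0x x)) := h2
      _ = 2 * (h * (K + 1)) * P0x x * Qx x ^ 2 := by ring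
      _ ≤ x := h1
  have hexp : ∀ m : ℕ, Mx x ≤ m → Real.exp (-(2 * (1 / 10000 : ℝ) ^ 2 * m)) ≤ E := by
    intro m hm
    rw [hE]
    apply Real.exp_le_exp.2
    have : (Mx x : ℝ) ≤ m := by exact_mod_cast hm
    nlinarith
  have hc1 : ∀ p ∈ S, ((E1 p).card : ℝ) ≤ P0x x * (2 * x) * E := by
    intro p hp
    obtain ⟨hpp, hpP⟩ := (hSmem p).1 hp
    obtain ⟨l, _, _, l3, l4⟩ := H.exists_l hh hpp hpP
    have h1 := card_high hpp.two_le (ε := 1 / 10000) (Dx x p) (by norm_num)
    refine h1.trans ?_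
    have h2 : (p : ℝ) ^ Dx x p ≤ P0x x * (2 * x) := by
      have h3 : p ^ Dx x p ≤ P0x x * (2 * x) :=
        (pow_Dx_le hx).trans (Nat.mul_le_mul_right _ hpP)
      exact_mod_cast h3
    have h3 := hexp (Dx x p) (by omega)
    gcongr
  have hc2 : ∀ p ∈ ({2, 3} : Finset ℕ), ((E2 p).card : ℝ) ≤ 3 * x * E := by
    intro p hp
    have hp23 : p = 2 ∨ p = 3 := by simpa using hp
    have hpp : p.Prime := by
      rcases hp23 with h1 | h1
      · rw [h1]
        exact Nat.prime_two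
      · rw [h1]
        exact Nat.prime_three
    have hpP : p ≤ P0x x := by omega
    have hle : p ^ (Qx x).factorization p ≤ x :=
      (Nat.le_of_dvd hQ (Nat.ordProj_dvd _ _)).trans hQx
    have h1 := card_shift (p := p) (e := (Qx x).factorization p) (x := x)
      (C := (K + 1) * Gx x + K + 1) hpp.two_le (ε := 1 / 10000) (by norm_num) hle
    refine h1.trans ?_
    have h2 := hexp ((Qx x).factorization p) (by
      obtain ⟨q1, q2⟩ := H.pow_le hpP
      rcases hp23 with h3 | h3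
      · subst h3
        rw [fact_two]
        exact (Nat.pow_le_pow_iff_right (by norm_num)).1 q1
      · subst h3
        rw [fact_three]
        exact (Nat.pow_le_pow_iff_right (by norm_num)).1 q2)
    gcongr
  have hsub : (Icc 1 x).filter (fun n => x ≤ h * n ∧
      Nfa7bfd82.g (K + 2) n < (K + 1) * Gx x) ⊆
      S.biUnion E1 ∪ ({2, 3} : Finset ℕ).biUnion E2 := by
    intro n hn
    rw [mem_filter, mem_Icc] at hn
    obtain ⟨⟨hn1, hnx⟩, hxn, hgn⟩ := hn
    by_contra hcon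
    rw [mem_union, not_or] at hcon
    obtain ⟨c1, c2⟩ := hcon
    refine absurd (scale_good hh H hnx hxn ?_ ?_) (not_le.2 hgn)
    · intro p hp hpP
      by_contra hlt
      push Not at hlt
      apply c1
      rw [mem_biUnion]
      refine ⟨p, (hSmem p).2 ⟨hp, hpP⟩, ?_⟩
      show n ∈ (range (p ^ Dx x p)).filter
        (fun n => (1 / 2 + 1 / 10000 : ℝ) * (p - 1) * Dx x p ≤ (sp p n : ℝ))
      rw [mem_filter, mem_range]
      have := lt_pow_Dx (x := x) hp.two_le
      exact ⟨by omega, hlt.le⟩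
    · intro p hp hpP
      by_cases h23 : p = 2 ∨ p = 3
      · by_contra hlt
        push Not at hlt
        apply c2
        rw [mem_biUnion]
        refine ⟨p, by simpa using h23, ?_⟩
        show n ∈ (range (x + 1)).filter
          (fun n => (sp p ((n + ((K + 1) * Gx x + K + 1)) % p ^ (Qx x).factorization p) : ℝ) ≤
          (1 / 2 - 1 / 10000 : ℝ) * (p - 1) * ((Qx x).factorization p))
        rw [mem_filter, mem_range]
        refine ⟨by omega, ?_⟩
        have e : n + ((K + 1) * Gx x + K + 1) = n + (K + 1) * Gx x + K + 1 := by ring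
        rw [e]
        exact hlt.le
      · push Not at h23
        rw [fact_other x h23.1 h23.2]
        simp
  have h1 : (((Icc 1 x).filter (fun n => x ≤ h * n ∧
      Nfa7bfd82.g (K + 2) n < (K + 1) * Gx x)).card : ℝ) ≤
      ∑ p ∈ S, ((E1 p).card : ℝ) + ∑ p ∈ ({2, 3} : Finset ℕ), ((E2 p).card : ℝ) := by
    have h2 := (card_le_card hsub).trans ((card_union_le _ _).trans
      (Nat.add_le_add card_biUnion_le card_biUnion_le))
    exact_mod_cast h2
  have h2 : ∑ p ∈ S, ((E1 p).card : ℝ) ≤ 2 * (P0x x : ℝ) ^ 2 * E * x := by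
    calc ∑ p ∈ S, ((E1 p).card : ℝ) ≤ ∑ _p ∈ S, (P0x x * (2 * x) * E : ℝ) := sum_le_sum hc1
      _ = S.card * (P0x x * (2 * x) * E) := by rw [sum_const, nsmul_eq_mul]
      _ ≤ P0x x * (P0x x * (2 * x) * E) := by gcongr
      _ = _ := by ring
  have h3 : ∑ p ∈ ({2, 3} : Finset ℕ), ((E2 p).card : ℝ) ≤ 6 * E * x := by
    calc ∑ p ∈ ({2, 3} : Finset ℕ), ((E2 p).card : ℝ)
        ≤ ∑ _p ∈ ({2, 3} : Finset ℕ), (3 * x * E : ℝ) := sum_le_sum hc2
      _ = 6 * E * x := by
          rw [sum_const]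
          simp
          ring
  have hP' : (1 : ℝ) ≤ (P0x x : ℝ) ^ 2 := by
    have : (16 : ℝ) ≤ P0x x := by exact_mod_cast hP
    nlinarith
  have h4 : 0 ≤ E * x := by positivity
  nlinarith

end Pool.Agent.H27.Fact
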