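import Mathlib
import Pool.Agent.H27.Fact.Count

/-! # The conditions hold for all large scales -/

set_option autoImplicit false

open Finset Filter Topology

namespace Pool.Agent.H27.Fact

theorem tendsto_Y : Tendsto (fun x : ℕ => (Nat.log 2 x : ℝ)) atTop atTop := by
  apply tendsto_natCast_atTop_atTop.comp
  rw [tendsto_atTop]
  intro b
  filter_upwards [eventually_ge_atTop (2 ^ b)] with x hx
  exact Nat.le_log_of_pow_le (by norm_num) hx

theorem ev1 (C : ℝ) {κ : ℝ} (hκ : 0 < κ) : ∀ᶠ y : ℝ in atTop, C + 4 * Real.log y ≤ κ * y := by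
  have h1 : ∀ᶠ y : ℝ in atTop, ‖Real.log y‖ ≤ κ / 8 * ‖y‖ :=
    Real.isLittleO_log_id_atTop.def (by positivity)
  filter_upwards [h1, eventually_ge_atTop (2 * |C| / κ), eventually_ge_atTop 0] with y h1 h2 h3
  have h4 : Real.log y ≤ κ / 8 * y := by
    calc Real.log y ≤ ‖Real.log y‖ := Real.le_norm_self _
      _ ≤ κ / 8 * ‖y‖ := h1
      _ = κ / 8 * y := by rw [Real.norm_of_nonneg h3]
  have h5 : 2 * |C| ≤ y * κ := by
    rw [div_le_iff₀ hκ] at h2
    exact h2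
  have h6 := le_abs_self C
  linarith

theorem ev2 (C : ℝ) {κ : ℝ} (hκ : 0 < κ) :
    ∀ᶠ y : ℝ in atTop, √y * (4 * Real.log y) + C ≤ κ * y := by
  have h1 : ∀ᶠ y : ℝ in atTop, ‖Real.log y‖ ≤ κ / 8 * ‖y ^ (1 / 2 : ℝ)‖ :=
    (isLittleO_log_rpow_atTop (by norm_num : (0 : ℝ) < 1 / 2)).def (by positivity)
  filter_upwards [h1, eventually_ge_atTop (2 * |C| / κ), eventually_ge_atTop 0] with y h1 h2 h3
  have h0 : ‖y ^ (1 / 2 : ℝ)‖ = √y := by
    rw [← Real.sqrt_eq_rpow, Real.norm_of_nonneg (Real.sqrt_nonneg y)]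
  rw [h0] at h1
  have h4 : Real.log y ≤ κ / 8 * √y := (Real.le_norm_self _).trans h1
  have h5 : 2 * |C| ≤ y * κ := by
    rw [div_le_iff₀ hκ] at h2
    exact h2
  have h6 := le_abs_self C
  have h7 : √y * √y = y := Real.mul_self_sqrt h3
  have h8 := mul_le_mul_of_nonneg_left h4 (Real.sqrt_nonneg y)
  nlinarith

theorem ev3 (C : ℝ) {κ δ : ℝ} (hκ : 0 < κ) (hδ : 0 < δ) :
    ∀ᶠ y : ℝ in atTop, C * y ^ 8 * Real.exp (-(κ * (√y - 1))) ≤ δ := by
  have h1 : Tendsto (fun s : ℝ => s ^ 16 * Real.exp (-s)) atTop (𝓝 0) :=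
    Real.tendsto_pow_mul_exp_neg_atTop_nhds_zero 16
  have h2 : Tendsto (fun y : ℝ => κ * √y) atTop atTop :=
    (Real.tendsto_sqrt_atTop).const_mul_atTop hκ
  have h3 := (h1.comp h2).const_mul (C * Real.exp κ / κ ^ 16)
  rw [mul_zero] at h3
  have h4 : ∀ᶠ y : ℝ in atTop, C * Real.exp κ / κ ^ 16 *
      (((fun s : ℝ => s ^ 16 * Real.exp (-s)) ∘ fun y => κ * √y) y) < δ :=
    h3.eventually (gt_mem_nhds hδ)
  filter_upwards [h4, eventually_ge_atTop 0] with y hy h0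
  refine le_trans (le_of_eq ?_) hy.le
  have h5 : √y ^ 16 = y ^ 8 := by
    have : √y ^ 16 = (√y ^ 2) ^ 8 := by ring
    rw [this, Real.sq_sqrt h0]
  have h6 : Real.exp (-(κ * (√y - 1))) = Real.exp κ * Real.exp (-(κ * √y)) := by
    rw [← Real.exp_add]
    congr 1
    ring
  simp only [Function.comp_def]
  rw [h6, mul_pow, h5]
  field_simp

theorem ev4 (C : ℝ) : ∀ᶠ y : ℝ in atTop, C * (y + 2) ^ 2 * (y + 1) ≤ y ^ 4 := by
  filter_upwards [eventually_ge_atTop (18 * |C| + 2)] with y hy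
  have h1 := le_abs_self C
  have h2 := abs_nonneg C
  have hy2 : 2 ≤ y := by linarith
  have h3 : (y + 2) ^ 2 * (y + 1) ≤ 8 * y ^ 3 := by
    have h4 : y + 2 ≤ 2 * y := by linarith
    have h5 : y + 1 ≤ 2 * y := by linarith
    calc (y + 2) ^ 2 * (y + 1) ≤ (2 * y) ^ 2 * (2 * y) := by gcongr
      _ = 8 * y ^ 3 := by ring
  have h4 : C * (y + 2) ^ 2 * (y + 1) ≤ |C| * (8 * y ^ 3) := by
    calc C * (y + 2) ^ 2 * (y + 1) = C * ((y + 2) ^ 2 * (y + 1)) := by ring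
      _ ≤ |C| * ((y + 2) ^ 2 * (y + 1)) := by gcongr
      _ ≤ |C| * (8 * y ^ 3) := by gcongr
  have h5 : |C| * 8 ≤ y := by linarith
  have h6 : (0 : ℝ) ≤ y ^ 3 := by positivity
  calc C * (y + 2) ^ 2 * (y + 1) ≤ |C| * (8 * y ^ 3) := h4
    _ = (|C| * 8) * y ^ 3 := by ring
    _ ≤ y * y ^ 3 := by gcongr
    _ = y ^ 4 := by ring

theorem log_bounds {x : ℕ} (hx : 0 < x) :
    (Nat.log 2 x : ℝ) * Real.log 2 ≤ Real.log x ∧
      Real.log x ≤ ((Nat.log 2 x : ℝ) + 1) * Real.log 2 := by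
  have hx' : (0 : ℝ) < x := by exact_mod_cast hx
  constructor
  · rw [← Real.log_pow]
    apply Real.log_le_log (by positivity)
    exact_mod_cast Nat.pow_log_le_self 2 hx.ne'
  · have h1 : ((Nat.log 2 x : ℝ) + 1) * Real.log 2 = Real.log ((2 : ℝ) ^ (Nat.log 2 x + 1)) := by
      rw [Real.log_pow]
      push_cast
      ring
    rw [h1]
    apply Real.log_le_log hx'
    exact_mod_cast (Nat.lt_pow_succ_log_self (by norm_num) x).le

theorem Mx_bounds (x : ℕ) : √(Nat.log 2 x : ℝ) - 1 ≤ Mx x ∧ (Mx x : ℝ) ≤ √(Nat.log 2 x : ℝ) := by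
  unfold Mx
  constructor
  · have h1 : Nat.log 2 x < (Nat.sqrt (Nat.log 2 x) + 1) * (Nat.sqrt (Nat.log 2 x) + 1) :=
      Nat.lt_succ_sqrt _
    have h2 : √(Nat.log 2 x : ℝ) ≤ (Nat.sqrt (Nat.log 2 x) : ℝ) + 1 := by
      rw [Real.sqrt_le_left (by positivity)]
      have h3 : (Nat.log 2 x : ℝ) < ((Nat.sqrt (Nat.log 2 x) : ℝ) + 1) *
          ((Nat.sqrt (Nat.log 2 x) : ℝ) + 1) := by exact_mod_cast h1
      nlinarith
    linarith
  · apply Real.le_sqrt_of_sq_le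
    have h1 : Nat.sqrt (Nat.log 2 x) * Nat.sqrt (Nat.log 2 x) ≤ Nat.log 2 x := Nat.sqrt_le _
    have h2 : (Nat.sqrt (Nat.log 2 x) : ℝ) * (Nat.sqrt (Nat.log 2 x) : ℝ) ≤ Nat.log 2 x := by
      exact_mod_cast h1
    nlinarith

theorem ev_exp {C δ : ℝ} (hC : 0 ≤ C) (hδ : 0 < δ) : ∀ᶠ x : ℕ in atTop,
    C * (P0x x : ℝ) ^ 2 * Real.exp (-(2 * (1 / 10000 : ℝ) ^ 2 * Mx x)) ≤ δ := by
  have h := tendsto_Y.eventually (ev3 C (κ := 2 * (1 / 10000 : ℝ) ^ 2) (by norm_num) hδ)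
  filter_upwards [h] with x hx
  refine le_trans ?_ hx
  have h1 : ((P0x x : ℝ)) ^ 2 = (Nat.log 2 x : ℝ) ^ 8 := by
    unfold P0x
    push_cast
    ring
  rw [h1]
  have h2 := (Mx_bounds x).1
  have h3 : Real.exp (-(2 * (1 / 10000 : ℝ) ^ 2 * Mx x)) ≤
      Real.exp (-(2 * (1 / 10000 : ℝ) ^ 2 * (√(Nat.log 2 x : ℝ) - 1))) := by
    apply Real.exp_le_exp.2
    nlinarith
  gcongr

theorem cond_eventually (K h : ℕ) (hh : 0 < h) : ∀ᶠ x : ℕ in atTop, Cond K h x := by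
  have l2 := Real.log_two_gt_d9
  have l2' := Real.log_two_lt_d9
  have e1 := tendsto_Y.eventually (ev1 (Real.log (2 * (h * (K + 1))) + 2) (κ := 0.012)
    (by norm_num))
  have e2 := tendsto_Y.eventually (ev2 2 (κ := 0.069) (by norm_num))
  have e3 := ev_exp (C := 80 * (h * (K + 1))) (δ := 1) (by positivity) one_pos
  have e4 := tendsto_Y.eventually (ev4 (8 * (K + 1) ^ 2))
  have e5 := tendsto_Y.eventually (eventually_ge_atTop (20000 : ℝ))
  have e6 := tendsto_Y.eventually (eventually_ge_atTop (8 * ((K : ℝ) + 1)))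
  filter_upwards [e1, e2, e3, e4, e5, e6, eventually_gt_atTop 0] with x h1 h2 h3 h4 h5 h6 hx
  obtain ⟨b1, b2⟩ := log_bounds hx
  obtain ⟨m1, m2⟩ := Mx_bounds x
  have hY : (0 : ℝ) < Nat.log 2 x := by linarith
  have hlogP : Real.log (P0x x) = 4 * Real.log (Nat.log 2 x) := by
    unfold P0x
    push_cast
    rw [Real.log_pow]
    push_cast
    ring
  have hlogY : 0 ≤ Real.log (Nat.log 2 x) := Real.log_nonneg (by linarith)
  have hLlow : 0.69 * (Nat.log 2 x : ℝ) ≤ Real.log x := by nlinarith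
  have hLup : Real.log x ≤ 0.7 * ((Nat.log 2 x : ℝ) + 1) := by nlinarith
  have hG : (Gx x : ℝ) ≤ (Nat.log 2 x : ℝ) + 2 := by
    have hL0 : 0 ≤ Real.log x := by linarith
    have : (Gx x : ℝ) ≤ 1.001 * Real.log x + 1 := by
      unfold Gx
      exact (Nat.ceil_lt_add_one (by positivity)).le
    linarith
  have hML : Mx x * Real.log (P0x x) ≤ √(Nat.log 2 x : ℝ) * (4 * Real.log (Nat.log 2 x)) := by
    rw [hlogP]
    gcongr
  refine ⟨?_, ?_, ?_, ?_, ?_, ?_, ?_, ?_⟩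
  · have hq := log_Qx_le hx
    rw [hlogP]
    linarith
  · have hi := log_ix hx
    linarith
  · have hj := log_jx hx
    linarith
  · exact h3
  · have h7 : (8 : ℝ) * ((K + 1) * Gx x) ^ 2 * (Nat.log 2 x + 1) ≤ P0x x := by
      have h8 : (P0x x : ℝ) = (Nat.log 2 x : ℝ) ^ 4 := by
        unfold P0x
        push_cast
        ring
      rw [h8]
      refine le_trans ?_ h4
      calc (8 : ℝ) * ((K + 1) * Gx x) ^ 2 * (Nat.log 2 x + 1)
          ≤ 8 * ((K + 1) * ((Nat.log 2 x : ℝ) + 2)) ^ 2 * (Nat.log 2 x + 1) := by gcongr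
        _ = _ := by ring
    exact_mod_cast h7
  · have h8 : (Nat.log 2 x : ℝ) ^ 2 ≤ 2 * x := by
      have h9 : Nat.log 2 x ^ 2 ≤ 2 * 2 ^ Nat.log 2 x := by
        have h10 : ∀ m : ℕ, m ^ 2 ≤ 2 * 2 ^ m := by
          intro m
          induction m with
          | zero => norm_num
          | succ m ih =>
            rcases Nat.lt_or_ge m 3 with h11 | h11
            · interval_cases m <;> norm_num
            · rw [pow_succ 2 m]
              nlinarith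
        exact h10 _
      have h11 : 2 ^ Nat.log 2 x ≤ x := Nat.pow_log_le_self 2 hx.ne'
      have h12 : Nat.log 2 x ^ 2 ≤ 2 * x := h9.trans (Nat.mul_le_mul_left 2 h11)
      exact_mod_cast h12
    have h9 : ((K : ℝ) + 1) * Gx x + K + 1 ≤ x := by
      have hK : (0 : ℝ) ≤ K := Nat.cast_nonneg K
      have h10 : ((K : ℝ) + 1) * Gx x + K + 1 ≤ (K + 1) * ((Nat.log 2 x : ℝ) + 3) := by
        nlinarith
      have h11 : ((K : ℝ) + 1) * ((Nat.log 2 x : ℝ) + 3) ≤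
          (Nat.log 2 x : ℝ) / 8 * (2 * Nat.log 2 x) := by
        have h12 : ((K : ℝ) + 1) ≤ (Nat.log 2 x : ℝ) / 8 := by linarith
        have h13 : (Nat.log 2 x : ℝ) + 3 ≤ 2 * Nat.log 2 x := by linarith
        gcongr
      nlinarith
    exact_mod_cast h9
  · linarith
  · have : (2 : ℝ) ≤ Nat.log 2 x := by linarith
    exact_mod_cast this

end Pool.Agent.H27.Fact
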