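import Mathlib
import Pool.Agent.H27.Fact.Exist

/-! # The upper bound -/

set_option autoImplicit false

open Finset Filter Topology

namespace Pool.Agent.H27.Fact

theorem sp_two_le {n : ℕ} (hn : 0 < n) : sp 2 n ≤ Nat.log 2 n + 1 := by
  unfold sp
  have h1 : (Nat.digits 2 n).sum ≤ (Nat.digits 2 n).length • 1 := by
    apply List.sum_le_card_nsmul
    intro d hd
    have := Nat.digits_lt_base (by norm_num : 1 < 2) hd
    omega
  rw [Nat.length_digits 2 n (by norm_num) hn.ne', smul_eq_mul, mul_one] at h1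
  exact h1

theorem sp_two_add (a b : ℕ) : sp 2 a + sp 2 b ≤ sp 2 (a + b) + Nat.log 2 (a + b) := by
  have h1 := legendre Nat.prime_two a
  have h2 := legendre Nat.prime_two b
  have h3 := legendre Nat.prime_two (a + b)
  have h4 := Nat.factorization_choose_le_log (p := 2) (n := a + b) (k := b)
  have h5 : (a + b).choose b * a.factorial * b.factorial = (a + b).factorial :=
    Nat.add_choose_mul_factorial_mul_factorial a b
  have hc : (a + b).choose b ≠ 0 := (Nat.choose_pos (by omega)).ne'
  have h6 : ((a + b).factorial).factorization 2 = ((a + b).choose b).factorization 2 +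
      (a.factorial).factorization 2 + (b.factorial).factorization 2 := by
    rw [← h5, Nat.factorization_mul (mul_ne_zero hc (Nat.factorial_ne_zero a))
      (Nat.factorial_ne_zero b), Nat.factorization_mul hc (Nat.factorial_ne_zero a)]
    simp
  norm_num at h1 h2 h3
  omega

theorem sum_sp_le (k : ℕ) : ∀ a : Fin (k + 1) → ℕ,
    ∑ i, sp 2 (a i) ≤ sp 2 (∑ i, a i) + k * Nat.log 2 (∑ i, a i) := by
  induction k with
  | zero =>
    intro a
    simp
  | succ k ih =>
    intro a
    rw [Fin.sum_univ_succ, Fin.sum_univ_succ (f := a)]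
    have h1 := ih (fun i => a i.succ)
    have h2 := sp_two_add (a 0) (∑ i : Fin (k + 1), a i.succ)
    have h3 : Nat.log 2 (∑ i : Fin (k + 1), a i.succ) ≤
        Nat.log 2 (a 0 + ∑ i : Fin (k + 1), a i.succ) := Nat.log_mono_right (by omega)
    have h4 : k * Nat.log 2 (∑ i : Fin (k + 1), a i.succ) ≤
        k * Nat.log 2 (a 0 + ∑ i : Fin (k + 1), a i.succ) := Nat.mul_le_mul_left k h3
    have h5 : (k + 1) * Nat.log 2 (a 0 + ∑ i : Fin (k + 1), a i.succ) =
      k * Nat.log 2 (a 0 + ∑ i : Fin (k + 1), a i.succ) +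
        Nat.log 2 (a 0 + ∑ i : Fin (k + 1), a i.succ) := by ring
    rw [h5]
    omega

/-- pointwise upper bound for one tuple -/
theorem tuple_le {k n : ℕ} {a : Fin (k + 1) → ℕ}
    (ha : (∏ i, (a i).factorial) ∣ n.factorial) (hN : n < ∑ i, a i) :
    (∑ i, a i) - n ≤ k * Nat.log 2 (∑ i, a i) + Nat.log 2 ((∑ i, a i) - n) + 1 := by
  have hne : ∀ i ∈ (univ : Finset (Fin (k + 1))), (a i).factorial ≠ 0 := fun i _ =>
    Nat.factorial_ne_zero _
  have h1 := (Nat.factorization_le_iff_dvd (prod_ne_zero_iff.2 hne)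
    (Nat.factorial_ne_zero n)).2 ha 2
  rw [Nat.factorization_prod hne, Finsupp.finsetSum_apply] at h1
  have h2 := legendre Nat.prime_two n
  have h3 : ∑ i, ((a i).factorial.factorization 2 + sp 2 (a i)) = ∑ i, a i := by
    apply sum_congr rfl
    intro i _
    have := legendre Nat.prime_two (a i)
    norm_num at this
    exact this
  rw [sum_add_distrib] at h3
  have h4 := sum_sp_le k a
  obtain ⟨g, hg⟩ : ∃ g, ∑ i, a i = n + g := ⟨(∑ i, a i) - n, by omega⟩
  have h5 := sp_add_le Nat.prime_two n g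
  have hg0 : 0 < g := by omega
  have h6 := sp_two_le hg0
  rw [hg] at h3 h4 ⊢
  rw [Nat.add_sub_cancel_left]
  norm_num at h2
  omega

theorem entry_le {k n : ℕ} {a : Fin k → ℕ} (ha : (∏ i, (a i).factorial) ∣ n.factorial)
    (i : Fin k) : a i ≤ n + 1 := by
  have h2 : (a i).factorial ∣ n.factorial := (dvd_prod_of_mem _ (mem_univ i)).trans ha
  have h3 := Nat.le_of_dvd (Nat.factorial_pos n) h2
  by_contra hcon
  push Not at hcon
  have h4 : n.factorial < (a i).factorial := by
    have h5 : (n + 1).factorial < (a i).factorial :=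
      (Nat.factorial_lt (by omega)).2 hcon
    have h6 : n.factorial ≤ (n + 1).factorial := Nat.factorial_le (by omega)
    omega
  omega

theorem natlog_le (m : ℕ) : (Nat.log 2 m : ℝ) ≤ Real.log m / Real.log 2 := by
  have l2 : 0 < Real.log 2 := Real.log_pos (by norm_num)
  rcases Nat.eq_zero_or_pos m with h0 | h0
  · simp [h0]
  · rw [le_div_iff₀ l2, ← Real.log_pow]
    apply Real.log_le_log (by positivity)
    exact_mod_cast Nat.pow_log_le_self 2 h0.ne'

theorem g_le {k n : ℕ} (hn : 1 ≤ n) {m : ℝ} (hm : 0 < m) :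
    (Nfa7bfd82.g (k + 1) n : ℝ) ≤ (k * Real.log ((k + 1) * (n + 1)) +
      (((k + 1) * (Real.log ((k + 1) * (n + 1)) + Real.log 2) / Real.log 2) / m +
        Real.log m)) / Real.log 2 + 1 := by
  have l2 : 0 < Real.log 2 := Real.log_pos (by norm_num)
  have hn' : (1 : ℝ) ≤ n := by exact_mod_cast hn
  have hk0 : (0 : ℝ) ≤ k := Nat.cast_nonneg k
  set Λ := Real.log ((k + 1) * (n + 1)) with hΛ
  have hΛ0 : 0 ≤ Λ := by
    apply Real.log_nonneg
    nlinarith
  -- the supremum is attained
  have hmem : Nfa7bfd82.g (k + 1) n ∈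
      { ((∑ i, a i) - n) | (a : Fin (k + 1) → ℕ) (_ : (∏ i, (a i).factorial) ∣ n.factorial) } := by
    apply Nat.sSup_mem
    · exact ⟨(∑ i, (fun _ : Fin (k + 1) => 0) i) - n, fun _ => 0, by simp, rfl⟩
    · exact bddAbove_g (k + 1) n
  obtain ⟨a, ha, hag⟩ := hmem
  rw [← hag]
  have hlogm : ∀ z : ℝ, 0 < z → Real.log z ≤ z / m + Real.log m := by
    intro z hz
    have h1 : Real.log z = Real.log (z / m) + Real.log m := by
      rw [← Real.log_mul (by positivity) hm.ne', div_mul_cancel₀ _ hm.ne']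
    have h2 := Real.log_le_sub_one_of_pos (show 0 < z / m by positivity)
    linarith
  by_cases hN : n < ∑ i, a i
  · have h1 := tuple_le ha hN
    set N := ∑ i, a i with hNdef
    set G := N - n with hG
    have hG0 : 0 < G := by omega
    have hNle : N ≤ (k + 1) * (n + 1) := by
      rw [hNdef]
      calc ∑ i, a i ≤ ∑ _i : Fin (k + 1), (n + 1) := sum_le_sum fun i _ => entry_le ha i
        _ = (k + 1) * (n + 1) := by simp
    have h2 : (Nat.log 2 N : ℝ) ≤ Λ / Real.log 2 := by
      refine (natlog_le N).trans ?_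
      have h3 : Real.log N ≤ Λ := by
        rw [hΛ]
        apply Real.log_le_log
        · exact_mod_cast (by omega : 0 < N)
        · exact_mod_cast hNle
      gcongr
    -- crude bound for `G`
    have h3 : Nat.log 2 G ≤ Nat.log 2 N := Nat.log_mono_right (Nat.sub_le _ _)
    have h4 : (G : ℝ) ≤ (k + 1) * (Λ + Real.log 2) / Real.log 2 := by
      have h5 : G ≤ (k + 1) * Nat.log 2 N + 1 := by
        calc G ≤ k * Nat.log 2 N + Nat.log 2 G + 1 := h1
          _ ≤ k * Nat.log 2 N + Nat.log 2 N + 1 := by omega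
          _ = _ := by ring
      have h6 : (G : ℝ) ≤ (k + 1) * (Nat.log 2 N : ℝ) + 1 := by exact_mod_cast h5
      calc (G : ℝ) ≤ (k + 1) * (Nat.log 2 N : ℝ) + 1 := h6
        _ ≤ (k + 1) * (Λ / Real.log 2) + (k + 1) := by
            have : (1 : ℝ) ≤ k + 1 := by linarith
            gcongr
        _ = _ := by
            field_simp
    have h7 : (Nat.log 2 G : ℝ) ≤ (((k + 1) * (Λ + Real.log 2) / Real.log 2) / m +
        Real.log m) / Real.log 2 := by
      refine (natlog_le G).trans ?_
      have hG' : (0 : ℝ) < G := by exact_mod_cast hG0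
      have h8 := hlogm G hG'
      have h9 : (G : ℝ) / m ≤ ((k + 1) * (Λ + Real.log 2) / Real.log 2) / m := by gcongr
      have h10 : Real.log G ≤ ((k + 1) * (Λ + Real.log 2) / Real.log 2) / m + Real.log m := by
        linarith
      gcongr
    have h11 : (G : ℝ) ≤ k * (Nat.log 2 N : ℝ) + Nat.log 2 G + 1 := by exact_mod_cast h1
    calc (G : ℝ) ≤ k * (Nat.log 2 N : ℝ) + Nat.log 2 G + 1 := h11
      _ ≤ k * (Λ / Real.log 2) + (((k + 1) * (Λ + Real.log 2) / Real.log 2) / m +
          Real.log m) / Real.log 2 + 1 := by gcongr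
      _ = _ := by ring
  · have h0 : (∑ i, a i) - n = 0 := by omega
    rw [h0]
    have h12 : 0 ≤ ((k + 1) * (Λ + Real.log 2) / Real.log 2) / m + Real.log m := by
      -- `log m ≥ - 1 / m`-type bound through `log 1 ≤ 1 / m + log m`
      have h1 := hlogm 1 one_pos
      rw [Real.log_one] at h1
      have h2 : (1 : ℝ) ≤ (k + 1) * (Λ + Real.log 2) / Real.log 2 := by
        rw [le_div_iff₀ l2]
        nlinarith [mul_nonneg hk0 hΛ0]
      have h3 : 1 / m ≤ ((k + 1) * (Λ + Real.log 2) / Real.log 2) / m := by gcongr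
      linarith
    have h13 : 0 ≤ k * Λ := mul_nonneg hk0 hΛ0
    have h14 : 0 ≤ (k * Λ + (((k + 1) * (Λ + Real.log 2) / Real.log 2) / m + Real.log m)) /
        Real.log 2 := by positivity
    push_cast
    linarith

/-- `limsup g_{k+1}(n) / log n ≤ k / log 2` -/
theorem upper (k : ℕ) {ε : ℝ} (hε : 0 < ε) : ∀ᶠ n : ℕ in atTop,
    (Nfa7bfd82.g (k + 1) n : ℝ) ≤ (k / Real.log 2 + ε) * Real.log n := by
  have l2 : 0 < Real.log 2 := Real.log_pos (by norm_num)
  have hk0 : (0 : ℝ) ≤ k := Nat.cast_nonneg k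
  -- choose `m` with a small slope
  set m : ℝ := 2 * (k + 1) / (ε * Real.log 2 ^ 2) with hm
  have hm0 : 0 < m := by rw [hm]; positivity
  -- constant term
  set A : ℝ := Real.log (2 * (k + 1)) with hA
  set c : ℝ := (k * A + (((k + 1) * (A + Real.log 2) / Real.log 2) / m + Real.log m)) /
    Real.log 2 + 1 with hc
  have ht : Tendsto (fun n : ℕ => Real.log n) atTop atTop :=
    Real.tendsto_log_atTop.comp tendsto_natCast_atTop_atTop
  filter_upwards [ht.eventually (eventually_ge_atTop (2 * |c| / ε)), eventually_ge_atTop 1]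
    with n h1 hn
  have hn' : (1 : ℝ) ≤ n := by exact_mod_cast hn
  refine (g_le hn hm0).trans ?_
  have h2 : Real.log ((k + 1) * (n + 1)) ≤ A + Real.log n := by
    rw [hA, ← Real.log_mul (by positivity) (by positivity)]
    apply Real.log_le_log (by positivity)
    nlinarith
  have h3 : (k * Real.log ((k + 1) * (n + 1)) +
      (((k + 1) * (Real.log ((k + 1) * (n + 1)) + Real.log 2) / Real.log 2) / m +
        Real.log m)) / Real.log 2 + 1 ≤
      (k * (A + Real.log n) +
      (((k + 1) * ((A + Real.log n) + Real.log 2) / Real.log 2) / m +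
        Real.log m)) / Real.log 2 + 1 := by gcongr
  refine h3.trans ?_
  have h4 : (k * (A + Real.log n) +
      (((k + 1) * ((A + Real.log n) + Real.log 2) / Real.log 2) / m +
        Real.log m)) / Real.log 2 + 1 =
      (k / Real.log 2 + (k + 1) / (Real.log 2 ^ 2 * m)) * Real.log n + c := by
    rw [hc]
    field_simp
    ring
  rw [h4]
  have h5 : ((k : ℝ) + 1) / (Real.log 2 ^ 2 * m) = ε / 2 := by
    rw [hm]
    field_simp
  rw [h5]
  have h6 : 2 * |c| ≤ Real.log n * ε := by
    rw [div_le_iff₀ hε] at h1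
    exact h1
  have h7 := le_abs_self c
  nlinarith

end Pool.Agent.H27.Fact
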