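import Mathlib
import Pool.Agent.H27.Fact.Asym
import Pool.Agent.H27.Fact.Upper

/-! # Normal and average order of the factorial excess -/

set_option autoImplicit false

open Finset Filter Topology

namespace Pool.Agent.H27.Fact

theorem bad_count (K h : ℕ) (hh : 0 < h) {δ : ℝ} (hδ : 0 < δ) : ∀ᶠ x : ℕ in atTop,
    (((Icc 1 x).filter (fun n => x ≤ h * n ∧
      Nfa7bfd82.g (K + 2) n < (K + 1) * Gx x)).card : ℝ) ≤ δ * x := by
  filter_upwards [cond_eventually K h hh, ev_exp (C := 8) (δ := δ) (by norm_num) hδ] with x H hx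
  refine (exceptional hh H).trans ?_
  gcongr

theorem small_count (h x : ℕ) (hh : 0 < h) :
    (((Icc 1 x).filter (fun n => h * n < x)).card : ℝ) ≤ x / h := by
  have h1 : (Icc 1 x).filter (fun n => h * n < x) ⊆ Icc 1 (x / h) := by
    intro n hn
    rw [mem_filter, mem_Icc] at hn
    rw [mem_Icc]
    refine ⟨hn.1.1, ?_⟩
    rw [Nat.le_div_iff_mul_le hh, mul_comm]
    exact hn.2.le
  have h2 := card_le_card h1
  rw [Nat.card_Icc, Nat.add_sub_cancel] at h2
  have h3 : (((Icc 1 x).filter (fun n => h * n < x)).card : ℝ) ≤ ((x / h : ℕ) : ℝ) := by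
    exact_mod_cast h2
  exact h3.trans Nat.cast_div_le

theorem Gx_ge (x : ℕ) : 1.001 * Real.log x ≤ Gx x := Nat.le_ceil _

theorem almost_all (K : ℕ) {δ : ℝ} (hδ : 0 < δ) : ∀ᶠ x : ℕ in atTop,
    (((Icc 1 x).filter (fun n => (Nfa7bfd82.g (K + 2) n : ℝ) ≤
      ((K : ℝ) + 1) * Real.log n)).card : ℝ) ≤ δ * x := by
  obtain ⟨h, hh1, hh2⟩ : ∃ h : ℕ, 0 < h ∧ (1 : ℝ) / h ≤ δ / 2 := by
    obtain ⟨h, hh⟩ := exists_nat_gt (2 / δ)
    have h0 : (0 : ℝ) < h := lt_trans (by positivity) hh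
    refine ⟨h, by exact_mod_cast h0, ?_⟩
    rw [div_le_div_iff₀ h0 (by norm_num)]
    rw [div_lt_iff₀ hδ] at hh
    linarith
  filter_upwards [bad_count K h hh1 (δ := δ / 2) (by positivity), eventually_gt_atTop 1]
    with x hx hx1
  have hx1' : (1 : ℝ) < x := by exact_mod_cast hx1
  have hsub : (Icc 1 x).filter (fun n => (Nfa7bfd82.g (K + 2) n : ℝ) ≤
      ((K : ℝ) + 1) * Real.log n) ⊆
      (Icc 1 x).filter (fun n => x ≤ h * n ∧ Nfa7bfd82.g (K + 2) n < (K + 1) * Gx x) ∪
      (Icc 1 x).filter (fun n => h * n < x) := by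
    intro n hn
    rw [mem_filter] at hn
    rw [mem_union, mem_filter, mem_filter]
    by_cases hc : x ≤ h * n
    · left
      refine ⟨hn.1, hc, ?_⟩
      have hn1 : 1 ≤ n ∧ n ≤ x := mem_Icc.1 hn.1
      have hn2 : (1 : ℝ) ≤ n := by exact_mod_cast hn1.1
      have h1 : Real.log n ≤ Real.log x := by
        apply Real.log_le_log (by linarith)
        exact_mod_cast hn1.2
      have h2 := Gx_ge x
      have h3 : 0 < Real.log x := Real.log_pos hx1'
      have h4 : (Nfa7bfd82.g (K + 2) n : ℝ) < ((K : ℝ) + 1) * Gx x := by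
        calc (Nfa7bfd82.g (K + 2) n : ℝ) ≤ ((K : ℝ) + 1) * Real.log n := hn.2
          _ ≤ ((K : ℝ) + 1) * Real.log x := by gcongr
          _ < ((K : ℝ) + 1) * Gx x := by
              gcongr
              linarith
      exact_mod_cast h4
    · right
      exact ⟨hn.1, by omega⟩
  have h5 := (card_le_card hsub).trans (card_union_le _ _)
  have h6 : (((Icc 1 x).filter (fun n => (Nfa7bfd82.g (K + 2) n : ℝ) ≤
      ((K : ℝ) + 1) * Real.log n)).card : ℝ) ≤
      ((Icc 1 x).filter (fun n => x ≤ h * n ∧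
        Nfa7bfd82.g (K + 2) n < (K + 1) * Gx x)).card +
      ((Icc 1 x).filter (fun n => h * n < x)).card := by exact_mod_cast h5
  have h7 := small_count h x hh1
  have h8 : (x : ℝ) / h ≤ δ / 2 * x := by
    calc (x : ℝ) / h = 1 / h * x := by ring
      _ ≤ δ / 2 * x := by gcongr
  linarith

theorem lower_sum (K : ℕ) : ∀ᶠ x : ℕ in atTop,
    ((K : ℝ) + 1) * (x * Real.log x) ≤ ∑ n ∈ Icc 1 x, (Nfa7bfd82.g (K + 2) n : ℝ) := by
  filter_upwards [bad_count K 10000 (by norm_num) (δ := 1 / 10000) (by norm_num),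
    eventually_gt_atTop 1] with x hx hx1
  have hx1' : (1 : ℝ) < x := by exact_mod_cast hx1
  have hL : 0 < Real.log x := Real.log_pos hx1'
  set S := (Icc 1 x).filter (fun n => ¬ (Nfa7bfd82.g (K + 2) n < (K + 1) * Gx x)) with hS
  have h1 : (x : ℝ) ≤ S.card + ((Icc 1 x).filter (fun n => x ≤ 10000 * n ∧
      Nfa7bfd82.g (K + 2) n < (K + 1) * Gx x)).card +
      ((Icc 1 x).filter (fun n => 10000 * n < x)).card := by
    have hsub : Icc 1 x ⊆ (S ∪ (Icc 1 x).filter (fun n => x ≤ 10000 * n ∧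
        Nfa7bfd82.g (K + 2) n < (K + 1) * Gx x)) ∪
        (Icc 1 x).filter (fun n => 10000 * n < x) := by
      intro n hn
      rw [mem_union, mem_union, hS, mem_filter, mem_filter, mem_filter]
      by_cases hc : x ≤ 10000 * n
      · by_cases hg : Nfa7bfd82.g (K + 2) n < (K + 1) * Gx x
        · exact Or.inl (Or.inr ⟨hn, hc, hg⟩)
        · exact Or.inl (Or.inl ⟨hn, hg⟩)
      · exact Or.inr ⟨hn, by omega⟩
    have h2 := (card_le_card hsub).trans ((card_union_le _ _).trans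
      (Nat.add_le_add_right (card_union_le _ _) _))
    rw [Nat.card_Icc, Nat.add_sub_cancel] at h2
    exact_mod_cast h2
  have h3 := small_count 10000 x (by norm_num)
  have h4 : (9998 / 10000 : ℝ) * x ≤ S.card := by
    push_cast at h3
    linarith
  have h5 : (S.card : ℝ) * (((K : ℝ) + 1) * Gx x) ≤
      ∑ n ∈ Icc 1 x, (Nfa7bfd82.g (K + 2) n : ℝ) := by
    calc (S.card : ℝ) * (((K : ℝ) + 1) * Gx x) = ∑ _n ∈ S, (((K : ℝ) + 1) * Gx x) := by
          rw [sum_const, nsmul_eq_mul]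
      _ ≤ ∑ n ∈ S, (Nfa7bfd82.g (K + 2) n : ℝ) := by
          apply sum_le_sum
          intro n hn
          rw [hS, mem_filter] at hn
          have := not_lt.1 hn.2
          exact_mod_cast this
      _ ≤ ∑ n ∈ Icc 1 x, (Nfa7bfd82.g (K + 2) n : ℝ) := by
          apply sum_le_sum_of_subset_of_nonneg (filter_subset _ _)
          intro n _ _
          exact Nat.cast_nonneg _
  refine le_trans ?_ h5
  have h6 := Gx_ge x
  have hK : (0 : ℝ) < (K : ℝ) + 1 := by positivity
  calc ((K : ℝ) + 1) * (x * Real.log x)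
      ≤ (9998 / 10000 * x) * (((K : ℝ) + 1) * (1.001 * Real.log x)) := by
        have : 0 ≤ ((K : ℝ) + 1) * (x * Real.log x) := by positivity
        nlinarith
    _ ≤ S.card * (((K : ℝ) + 1) * Gx x) := by gcongr

theorem upper_sum (k : ℕ) {ε : ℝ} (hε : 0 < ε) : ∀ᶠ x : ℕ in atTop,
    ∑ n ∈ Icc 1 x, (Nfa7bfd82.g (k + 1) n : ℝ) ≤
      ((k : ℝ) / Real.log 2 + ε) * (x * Real.log x) := by
  have l2 : 0 < Real.log 2 := Real.log_pos (by norm_num)
  have hk0 : (0 : ℝ) ≤ k := Nat.cast_nonneg k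
  obtain ⟨n₀, hn₀⟩ := eventually_atTop.1 (upper k (ε := ε / 2) (by positivity))
  set A : ℝ := ∑ n ∈ Icc 1 n₀, (Nfa7bfd82.g (k + 1) n : ℝ) with hA
  have ht : Tendsto (fun n : ℕ => Real.log n) atTop atTop :=
    Real.tendsto_log_atTop.comp tendsto_natCast_atTop_atTop
  filter_upwards [eventually_ge_atTop n₀, eventually_gt_atTop 1,
    ht.eventually (eventually_ge_atTop (2 * A / ε))] with x hx hx1 hx2
  have hx1' : (1 : ℝ) < x := by exact_mod_cast hx1
  have hL : 0 < Real.log x := Real.log_pos hx1'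
  have h1 : ∑ n ∈ Icc 1 x, (Nfa7bfd82.g (k + 1) n : ℝ) ≤
      A + ∑ _n ∈ Icc 1 x, ((k : ℝ) / Real.log 2 + ε / 2) * Real.log x := by
    have h2 : ∀ n ∈ Icc 1 x, (Nfa7bfd82.g (k + 1) n : ℝ) ≤
        (if n ∈ Icc 1 n₀ then (Nfa7bfd82.g (k + 1) n : ℝ) else 0) +
        ((k : ℝ) / Real.log 2 + ε / 2) * Real.log x := by
      intro n hn
      have hn' := mem_Icc.1 hn
      have hpos : 0 ≤ ((k : ℝ) / Real.log 2 + ε / 2) * Real.log x := by positivity
      by_cases hc : n ∈ Icc 1 n₀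
      · rw [if_pos hc]
        linarith
      · rw [if_neg hc, zero_add]
        have hn2 : n₀ ≤ n := by
          rw [mem_Icc] at hc
          omega
        refine (hn₀ n hn2).trans ?_
        have hn3 : (1 : ℝ) ≤ n := by exact_mod_cast hn'.1
        have h3 : Real.log n ≤ Real.log x := by
          apply Real.log_le_log (by linarith)
          exact_mod_cast hn'.2
        gcongr
    refine (sum_le_sum h2).trans ?_
    rw [sum_add_distrib]
    gcongr
    rw [← sum_filter, hA]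
    apply sum_le_sum_of_subset_of_nonneg
    · intro n hn
      exact (mem_filter.1 hn).2
    · intro n _ _
      exact Nat.cast_nonneg _
  refine h1.trans ?_
  rw [sum_const, Nat.card_Icc, Nat.add_sub_cancel, nsmul_eq_mul]
  have h3 : 2 * A ≤ Real.log x * ε := by
    rw [div_le_iff₀ hε] at hx2
    exact hx2
  have h4 : A ≤ ε / 2 * (x * Real.log x) := by
    have h5 : A ≤ ε / 2 * Real.log x := by linarith
    have h6 : ε / 2 * Real.log x ≤ ε / 2 * (x * Real.log x) := by
      have : Real.log x ≤ x * Real.log x := by nlinarith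
      gcongr
    linarith
  calc A + x * (((k : ℝ) / Real.log 2 + ε / 2) * Real.log x)
      ≤ ε / 2 * (x * Real.log x) + x * (((k : ℝ) / Real.log 2 + ε / 2) * Real.log x) := by
        linarith
    _ = _ := by ring

end Pool.Agent.H27.Fact
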